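import Mathlib

/-!
# Coefficient arrays on the cube

`G : Finset (Fin N) → ℂ` is the array of Fourier coefficients of a function on the cube.
-/

set_option autoImplicit false

open Finset

namespace Pool.Agent.H.MP_58d537_lc.H52

noncomputable section

variable {N : ℕ}

/-- squared norm of an array -/
def n2 (G : Finset (Fin N) → ℂ) : ℝ := ∑ A, ‖G A‖ ^ 2

lemma n2_nonneg (G : Finset (Fin N) → ℂ) : 0 ≤ n2 G :=
  Finset.sum_nonneg fun _ _ => by positivity

/-- toggling `j` is a permutation of the index sets -/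
def tog (j : Fin N) : Finset (Fin N) ≃ Finset (Fin N) where
  toFun A := symmDiff A {j}
  invFun A := symmDiff A {j}
  left_inv _ := symmDiff_symmDiff_cancel_right _ _
  right_inv _ := symmDiff_symmDiff_cancel_right _ _

/-- multiplication by the `j`-th sign -/
def sh (j : Fin N) (G : Finset (Fin N) → ℂ) (A : Finset (Fin N)) : ℂ := G (symmDiff A {j})

lemma n2_sh (j : Fin N) (G : Finset (Fin N) → ℂ) : n2 (sh j G) = n2 G :=
  (tog j).sum_comp fun A => ‖G A‖ ^ 2

lemma sum_tog {M : Type*} [AddCommMonoid M] (j : Fin N) (f : Finset (Fin N) → M) :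
    ∑ A, f A = ∑ A, f (symmDiff A {j}) := ((tog j).sum_comp f).symm

/-- multiplication by the real function with coefficients `h` -/
def Mc (h : Finset (Fin N) → ℝ) (G : Finset (Fin N) → ℂ) (B : Finset (Fin N)) : ℂ :=
  ∑ A, (h (symmDiff B A) : ℂ) * G A

/-- the disjoint part of the multiplication -/
def Wc (h : Finset (Fin N) → ℝ) (G : Finset (Fin N) → ℂ) (B : Finset (Fin N)) : ℂ :=
  ∑ A, (if A ⊆ B then (h (B \ A) : ℂ) else 0) * G A

/-- discrete derivative of the multiplier -/
def Dj (j : Fin N) (h : Finset (Fin N) → ℝ) (R : Finset (Fin N)) : ℝ :=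
  if j ∈ R then 0 else h (insert j R)

lemma Mc_sh (j : Fin N) (h : Finset (Fin N) → ℝ) (G : Finset (Fin N) → ℂ) :
    Mc h (sh j G) = sh j (Mc h G) := by
  funext B
  unfold Mc sh
  rw [sum_tog j]
  refine Finset.sum_congr rfl fun A _ => ?_
  rw [symmDiff_symmDiff_cancel_right, symmDiff_right_comm B {j} A, symmDiff_assoc B A {j}]

lemma mem_tog {j i : Fin N} {A : Finset (Fin N)} :
    i ∈ symmDiff A {j} ↔ (i ∈ A ∧ i ≠ j) ∨ (i = j ∧ i ∉ A) := by
  simp [Finset.mem_symmDiff]

/-- leaving -/
lemma Wc_sh_even (j : Fin N) (h : Finset (Fin N) → ℝ) (G : Finset (Fin N) → ℂ)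
    (hG : ∀ A, j ∈ A → G A = 0) (B : Finset (Fin N)) :
    Wc h (sh j G) B = sh j (Wc h G) B - Wc (Dj j h) G B := by
  unfold Wc sh
  rw [sum_tog j, ← Finset.sum_sub_distrib]
  refine Finset.sum_congr rfl fun A _ => ?_
  rw [symmDiff_symmDiff_cancel_right, ← sub_mul]
  by_cases hA : j ∈ A
  · rw [hG A hA]; simp
  congr 1
  by_cases hB : j ∈ B
  · have e1 : symmDiff A {j} ⊆ B ↔ A ⊆ B := by
      constructor
      · intro h1 i hi
        have : i ≠ j := fun h2 => hA (h2 ▸ hi)
        exact h1 (mem_tog.mpr (Or.inl ⟨hi, this⟩))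
      · intro h1 i hi
        rcases mem_tog.mp hi with h2 | h2
        · exact h1 h2.1
        · rw [h2.1]; exact hB
    have e2 : A ⊆ symmDiff B {j} ↔ A ⊆ B := by
      constructor
      · intro h1 i hi
        rcases mem_tog.mp (h1 hi) with h2 | h2
        · exact h2.1
        · rw [h2.1]; exact hB
      · intro h1 i hi
        have : i ≠ j := fun h2 => hA (h2 ▸ hi)
        exact mem_tog.mpr (Or.inl ⟨h1 hi, this⟩)
    have e3 : B \ symmDiff A {j} = symmDiff B {j} \ A := by
      ext i
      simp only [Finset.mem_sdiff, mem_tog]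
      by_cases hi : i = j
      · subst hi; simp [hA, hB]
      · simp [hi]
    have e4 : Dj j h (B \ A) = 0 := by
      unfold Dj
      rw [if_pos (Finset.mem_sdiff.mpr ⟨hB, hA⟩)]
    simp only [e1, e2, e3, e4]
    simp
  · have e1 : ¬ symmDiff A {j} ⊆ B := by
      intro h1
      exact hB (h1 (mem_tog.mpr (Or.inr ⟨rfl, hA⟩)))
    have e2 : A ⊆ symmDiff B {j} ↔ A ⊆ B := by
      constructor
      · intro h1 i hi
        rcases mem_tog.mp (h1 hi) with h2 | h2
        · exact h2.1
        · exact absurd (h2.1 ▸ hi) hA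
      · intro h1 i hi
        have : i ≠ j := fun h2 => hA (h2 ▸ hi)
        exact mem_tog.mpr (Or.inl ⟨h1 hi, this⟩)
    have e4 : Dj j h (B \ A) = h (symmDiff B {j} \ A) := by
      unfold Dj
      rw [if_neg (fun h1 => hB (Finset.mem_sdiff.mp h1).1)]
      congr 1
      ext i
      simp only [Finset.mem_sdiff, mem_tog, Finset.mem_insert]
      by_cases hi : i = j
      · subst hi; simp [hA, hB]
      · simp [hi]
    simp only [e1, e2, e4]
    simp

/-- entering -/
lemma Wc_sh_odd (j : Fin N) (h : Finset (Fin N) → ℝ) (G : Finset (Fin N) → ℂ)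
    (hG : ∀ A, j ∉ A → G A = 0) (B : Finset (Fin N)) :
    Wc h (sh j G) B = sh j (Wc h G) B + sh j (Wc (Dj j h) (sh j G)) B := by
  unfold Wc sh
  beta_reduce
  rw [sum_tog j, sum_tog j (fun A => (if A ⊆ symmDiff B {j} then
    ((Dj j h (symmDiff B {j} \ A) : ℝ) : ℂ) else 0) * G (symmDiff A {j})),
    ← Finset.sum_add_distrib]
  refine Finset.sum_congr rfl fun A _ => ?_
  rw [symmDiff_symmDiff_cancel_right, ← add_mul]
  by_cases hA : j ∈ A
  swap
  · rw [hG A hA]; simp
  congr 1
  have e0 : symmDiff A {j} ⊆ symmDiff B {j} ↔ symmDiff A {j} ⊆ B := by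
    constructor
    · intro h1 i hi
      have h3 : i ≠ j := by
        rcases mem_tog.mp hi with h2 | h2
        · exact h2.2
        · exact absurd (h2.1 ▸ hA) h2.2
      rcases mem_tog.mp (h1 hi) with h2 | h2
      · exact h2.1
      · exact absurd h2.1 h3
    · intro h1 i hi
      have h3 : i ≠ j := by
        rcases mem_tog.mp hi with h2 | h2
        · exact h2.2
        · exact absurd (h2.1 ▸ hA) h2.2
      exact mem_tog.mpr (Or.inl ⟨h1 hi, h3⟩)
  by_cases hB : j ∈ B
  · have e2 : ¬ A ⊆ symmDiff B {j} := by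
      intro h1
      rcases mem_tog.mp (h1 hA) with h2 | h2
      · exact h2.2 rfl
      · exact h2.2 hB
    have e4 : Dj j h (symmDiff B {j} \ symmDiff A {j}) = h (B \ symmDiff A {j}) := by
      unfold Dj
      rw [if_neg (fun h1 => by
        rcases mem_tog.mp (Finset.mem_sdiff.mp h1).1 with h2 | h2
        · exact h2.2 rfl
        · exact h2.2 hB)]
      congr 1
      ext i
      simp only [Finset.mem_sdiff, mem_tog, Finset.mem_insert]
      by_cases hi : i = j
      · subst hi; simp [hA, hB]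
      · simp [hi]
    simp only [e0, e2, e4]
    simp
  · have e2 : A ⊆ symmDiff B {j} ↔ symmDiff A {j} ⊆ B := by
      constructor
      · intro h1 i hi
        rcases mem_tog.mp hi with h2 | h2
        · rcases mem_tog.mp (h1 h2.1) with h3 | h3
          · exact h3.1
          · exact absurd h3.1 h2.2
        · exact absurd (h2.1 ▸ hA) h2.2
      · intro h1 i hi
        by_cases hij : i = j
        · exact mem_tog.mpr (Or.inr ⟨hij, hij ▸ hB⟩)
        · exact mem_tog.mpr (Or.inl ⟨h1 (mem_tog.mpr (Or.inl ⟨hi, hij⟩)), hij⟩)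
    have e3 : B \ symmDiff A {j} = symmDiff B {j} \ A := by
      ext i
      simp only [Finset.mem_sdiff, mem_tog]
      by_cases hi : i = j
      · subst hi; simp [hA, hB]
      · simp [hi]
    have e4 : Dj j h (symmDiff B {j} \ symmDiff A {j}) = 0 := by
      unfold Dj
      rw [if_pos (Finset.mem_sdiff.mpr ⟨mem_tog.mpr (Or.inr ⟨rfl, hB⟩), fun h1 => by
        rcases mem_tog.mp h1 with h2 | h2
        · exact h2.2 rfl
        · exact h2.2 hA⟩)]
    simp only [e0, e2, e3, e4]
    simp

/-! ### homogeneous multipliers -/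

/-- `h` is homogeneous of degree `k` -/
def Hom (k : ℕ) (h : Finset (Fin N) → ℝ) : Prop := ∀ R, R.card ≠ k → h R = 0

lemma Hom.Dj {k : ℕ} {h : Finset (Fin N) → ℝ} (hh : Hom (k + 1) h) (j : Fin N) :
    Hom k (Dj j h) := by
  intro R hR
  unfold H52.Dj
  by_cases hj : j ∈ R
  · rw [if_pos hj]
  · rw [if_neg hj]
    apply hh
    rw [Finset.card_insert_of_notMem hj]
    omega

lemma sum_insert_eq (j : Fin N) (f : Finset (Fin N) → ℝ) :
    ∑ R, (if j ∈ R then 0 else f (insert j R)) = ∑ R, if j ∈ R then f R else 0 := by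
  rw [sum_tog j (fun R => if j ∈ R then f R else 0)]
  refine Finset.sum_congr rfl fun R _ => ?_
  by_cases hj : j ∈ R
  · have : j ∉ symmDiff R {j} := by
      rw [mem_tog]; tauto
    rw [if_pos hj, if_neg this]
  · have h1 : j ∈ symmDiff R {j} := by
      rw [mem_tog]; tauto
    have h2 : symmDiff R {j} = insert j R := by
      ext i
      simp only [mem_tog, Finset.mem_insert]
      by_cases hi : i = j
      · subst hi; simp [hj]
      · simp [hi]
    rw [if_neg hj, if_pos h1, h2]

lemma sum_Dj_sq (j : Fin N) (h : Finset (Fin N) → ℝ) :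
    ∑ R, (Dj j h R) ^ 2 = ∑ R, if j ∈ R then (h R) ^ 2 else 0 := by
  rw [← sum_insert_eq j (fun R => (h R) ^ 2)]
  refine Finset.sum_congr rfl fun R _ => ?_
  unfold Dj
  split_ifs <;> simp

/-- Euler identity -/
lemma sum_sum_Dj_sq {k : ℕ} {h : Finset (Fin N) → ℝ} (hh : Hom k h) :
    ∑ j, ∑ R, (Dj j h R) ^ 2 = k * ∑ R, (h R) ^ 2 := by
  simp only [sum_Dj_sq]
  rw [Finset.sum_comm, Finset.mul_sum]
  refine Finset.sum_congr rfl fun R _ => ?_
  rw [Finset.sum_ite_mem, Finset.univ_inter, Finset.sum_const, nsmul_eq_mul]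
  by_cases hR : R.card = k
  · rw [hR]
  · rw [hh R hR]; simp

end

end Pool.Agent.H.MP_58d537_lc.H52
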