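import Pool.Agent.H.MP_58d537_lc.H52.Zw

/-!
# Aware algorithms in coefficient space

`φ s b` is the array of Fourier coefficients of the amplitude at the basis state `b` before query
number `s`. The algorithm is aware if the amplitude at a basis state querying `j` is even or odd
in the bit `j`.
-/

set_option autoImplicit false

open Finset ComplexConjugate Matrix

namespace Pool.Agent.H.MP_58d537_lc.H52

noncomputable section

variable {N : ℕ} {B : Type*} [Fintype B]

/-- a query algorithm: queried bits of the basis states, unitaries, initial state -/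
structure Sys (N : ℕ) (B : Type*) [Fintype B] where
  q : B → Option (Fin N)
  U : ℕ → Matrix B B ℂ
  hU : ∀ (s : ℕ) (v : B → ℂ), ∑ b, ‖∑ b', U s b b' * v b'‖ ^ 2 = ∑ b, ‖v b‖ ^ 2
  v0 : B → ℂ
  hv0 : ∑ b, ‖v0 b‖ ^ 2 = 1

/-- effect of the oracle on a coefficient array -/
def shq (o : Option (Fin N)) (G : Finset (Fin N) → ℂ) : Finset (Fin N) → ℂ :=
  match o with
  | none => G
  | some j => sh j G

/-- coefficient arrays of the states -/
def Sys.φ (A : Sys N B) : ℕ → B → Finset (Fin N) → ℂ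
  | 0, b, S => if S = ∅ then A.v0 b else 0
  | s + 1, b, S => ∑ b', A.U s b b' * shq (A.q b') (A.φ s b') S

/-- even in the bit `j` -/
def Ev (j : Fin N) (G : Finset (Fin N) → ℂ) : Prop := ∀ S, j ∈ S → G S = 0

/-- odd in the bit `j` -/
def Od (j : Fin N) (G : Finset (Fin N) → ℂ) : Prop := ∀ S, j ∉ S → G S = 0

/-- awareness for the first `T` queries -/
def Sys.Aware (A : Sys N B) (T : ℕ) : Prop :=
  ∀ s, s < T → ∀ b j, A.q b = some j → Ev j (A.φ s b) ∨ Od j (A.φ s b)

lemma n2_shq (o : Option (Fin N)) (G : Finset (Fin N) → ℂ) : n2 (shq o G) = n2 G := by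
  cases o with
  | none => rfl
  | some j => exact n2_sh j G

lemma Mc_shq (o : Option (Fin N)) (h : Finset (Fin N) → ℝ) (G : Finset (Fin N) → ℂ) :
    Mc h (shq o G) = shq o (Mc h G) := by
  cases o with
  | none => rfl
  | some j => exact Mc_sh j h G

lemma shq_sub (o : Option (Fin N)) (F G : Finset (Fin N) → ℂ) (S : Finset (Fin N)) :
    shq o (fun S => F S - G S) S = shq o F S - shq o G S := by
  cases o <;> rfl

lemma Sys.sum_n2 (A : Sys N B) (s : ℕ) (F : B → Finset (Fin N) → ℂ) :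
    ∑ b, n2 (fun S => ∑ b', A.U s b b' * F b' S) = ∑ b, n2 (F b) := by
  unfold n2
  rw [Finset.sum_comm, Finset.sum_comm (f := fun b S => ‖F b S‖ ^ 2)]
  exact Finset.sum_congr rfl fun S _ => A.hU s (fun b' => F b' S)

lemma Sys.mass (A : Sys N B) (s : ℕ) : ∑ b, n2 (A.φ s b) = 1 := by
  induction s with
  | zero =>
    rw [← A.hv0]
    refine Finset.sum_congr rfl fun b _ => ?_
    unfold n2
    rw [Finset.sum_eq_single ∅]
    · simp [Sys.φ]
    · intro S _ hS
      simp [Sys.φ, hS]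
    · intro h; exact absurd (Finset.mem_univ _) h
  | succ s ih =>
    rw [← ih]
    have := A.sum_n2 s (fun b' => shq (A.q b') (A.φ s b'))
    simp only [n2_shq] at this
    exact this

/-! ### the extension keeps its norm -/

lemma ev_sum (c : B → ℂ) (F : B → Finset (Fin N) → ℂ) (w : Fin N → ZMod 4) :
    ev (fun S => ∑ b, c b * F b S) w = ∑ b, c b * ev (F b) w := by
  unfold ev
  simp only [Finset.sum_mul, Finset.mul_sum]
  rw [Finset.sum_comm]
  refine Finset.sum_congr rfl fun b _ => Finset.sum_congr rfl fun S _ => ?_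
  ring

lemma ev_sh_even {j : Fin N} {G : Finset (Fin N) → ℂ} (hG : Ev j G) (w : Fin N → ZMod 4) :
    ev (sh j G) w = ch4 (ind {j}) w * ev G w := by
  unfold ev sh
  rw [sum_tog j, Finset.mul_sum]
  refine Finset.sum_congr rfl fun S _ => ?_
  rw [symmDiff_symmDiff_cancel_right]
  by_cases hS : j ∈ S
  · rw [hG S hS]; simp
  · have h1 : ind (symmDiff S {j}) = ind {j} + ind S := by
      have h2 : symmDiff S {j} = {j} ∪ S := by
        ext i
        simp only [mem_tog, Finset.mem_union, Finset.mem_singleton]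
        by_cases hi : i = j
        · subst hi; simp [hS]
        · simp [hi]
      rw [h2, ind_union (Finset.disjoint_singleton_left.mpr hS)]
    rw [h1, ch4_add]
    ring

lemma ev_sh_odd {j : Fin N} {G : Finset (Fin N) → ℂ} (hG : Od j G) (w : Fin N → ZMod 4) :
    ev (sh j G) w = conj (ch4 (ind {j}) w) * ev G w := by
  unfold ev sh
  rw [sum_tog j, Finset.mul_sum]
  refine Finset.sum_congr rfl fun S _ => ?_
  rw [symmDiff_symmDiff_cancel_right]
  by_cases hS : j ∈ S
  swap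
  · rw [hG S hS]; simp
  · have h1 : ind (symmDiff S {j}) = ind S - ind {j} := by
      have h2 : S = {j} ∪ symmDiff S {j} := by
        ext i
        simp only [mem_tog, Finset.mem_union, Finset.mem_singleton]
        by_cases hi : i = j
        · subst hi; simp [hS]
        · simp [hi]
      have h3 : Disjoint {j} (symmDiff S {j}) := by
        rw [Finset.disjoint_singleton_left, mem_tog]
        tauto
      rw [eq_sub_iff_add_eq', ind_union h3, ← h2]
    rw [h1, ← conj_ch4_mul]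
    ring

lemma norm_ev_sh {j : Fin N} {G : Finset (Fin N) → ℂ} (hG : Ev j G ∨ Od j G)
    (w : Fin N → ZMod 4) : ‖ev (sh j G) w‖ = ‖ev G w‖ := by
  rcases hG with hG | hG
  · rw [ev_sh_even hG, norm_mul, norm_ch4, one_mul]
  · rw [ev_sh_odd hG, norm_mul, RCLike.norm_conj, norm_ch4, one_mul]

lemma Sys.norm_ev_shq (A : Sys N B) {T : ℕ} (hA : A.Aware T) {s : ℕ} (hs : s < T) (b : B)
    (w : Fin N → ZMod 4) : ‖ev (shq (A.q b) (A.φ s b)) w‖ = ‖ev (A.φ s b) w‖ := by
  cases hq : A.q b with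
  | none => rfl
  | some j => exact norm_ev_sh (hA s hs b j hq) w

lemma Sys.norm_ext (A : Sys N B) {T : ℕ} (hA : A.Aware T) :
    ∀ s, s ≤ T → ∀ w : Fin N → ZMod 4, ∑ b, ‖ev (A.φ s b) w‖ ^ 2 = 1 := by
  intro s
  induction s with
  | zero =>
    intro _ w
    rw [← A.hv0]
    refine Finset.sum_congr rfl fun b _ => ?_
    have h1 : ev (A.φ 0 b) w = A.v0 b := by
      unfold ev
      rw [Finset.sum_eq_single ∅]
      · have : ind (∅ : Finset (Fin N)) = 0 := by
          funext j; simp [ind]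
        rw [this]
        simp [Sys.φ, ch4, r4_zero]
      · intro S _ hS
        simp [Sys.φ, hS]
      · intro h; exact absurd (Finset.mem_univ _) h
    rw [h1]
  | succ s ih =>
    intro hs w
    rw [← ih (by omega) w]
    have h1 : ∀ b, ev (A.φ (s + 1) b) w =
        ∑ b', A.U s b b' * ev (shq (A.q b') (A.φ s b')) w := by
      intro b
      rw [← ev_sum]
      rfl
    simp only [h1]
    rw [A.hU s (fun b' => ev (shq (A.q b') (A.φ s b')) w)]
    refine Finset.sum_congr rfl fun b _ => ?_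
    rw [A.norm_ev_shq hA (by omega)]

/-! ### weights and charge mass -/

/-- average weight of the bit `j` in query `s` -/
def Sys.W (A : Sys N B) (s : ℕ) (j : Fin N) : ℝ :=
  ∑ b, if A.q b = some j then n2 (A.φ s b) else 0

lemma Sys.W_nonneg (A : Sys N B) (s : ℕ) (j : Fin N) : 0 ≤ A.W s j :=
  Finset.sum_nonneg fun b _ => by split_ifs; exacts [n2_nonneg _, le_rfl]

/-- mass of the coefficients containing `j` -/
def Sys.Nm (A : Sys N B) (s : ℕ) (j : Fin N) : ℝ :=
  ∑ b, ∑ S, if j ∈ S then ‖A.φ s b S‖ ^ 2 else 0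

lemma Sys.Nm_succ (A : Sys N B) (s : ℕ) (j : Fin N) : A.Nm (s + 1) j ≤ A.Nm s j + A.W s j := by
  unfold Sys.Nm Sys.W
  have h1 : ∑ b, ∑ S, (if j ∈ S then ‖A.φ (s + 1) b S‖ ^ 2 else 0) =
      ∑ b, ∑ S, (if j ∈ S then ‖shq (A.q b) (A.φ s b) S‖ ^ 2 else 0) := by
    rw [Finset.sum_comm, Finset.sum_comm (f := fun b S =>
      if j ∈ S then ‖shq (A.q b) (A.φ s b) S‖ ^ 2 else 0)]
    refine Finset.sum_congr rfl fun S _ => ?_
    by_cases hS : j ∈ S
    · simp only [hS, if_true]
      exact A.hU s (fun b' => shq (A.q b') (A.φ s b') S)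
    · simp only [hS, if_false]
  rw [h1, ← Finset.sum_add_distrib]
  refine Finset.sum_le_sum fun b _ => ?_
  have h0 : 0 ≤ ∑ S, (if j ∈ S then ‖A.φ s b S‖ ^ 2 else 0) :=
    Finset.sum_nonneg fun S _ => by split_ifs <;> positivity
  cases hq : A.q b with
  | none => simp [shq]
  | some i =>
    by_cases hij : i = j
    · subst hij
      rw [if_pos rfl]
      have h2 : ∑ S, (if i ∈ S then ‖shq (some i) (A.φ s b) S‖ ^ 2 else 0) ≤ n2 (A.φ s b) := by
        rw [← n2_shq (some i)]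
        unfold n2
        refine Finset.sum_le_sum fun S _ => ?_
        split_ifs
        · exact le_rfl
        · positivity
      linarith
    · rw [if_neg (by simpa using hij), add_zero]
      apply le_of_eq
      rw [sum_tog i (fun S => if j ∈ S then ‖shq (some i) (A.φ s b) S‖ ^ 2 else 0)]
      refine Finset.sum_congr rfl fun S _ => ?_
      have h3 : j ∈ symmDiff S {i} ↔ j ∈ S := by
        rw [mem_tog]
        have : j ≠ i := fun h => hij h.symm
        tauto
      simp only [h3, shq, sh, symmDiff_symmDiff_cancel_right]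

lemma Sys.Nm_le (A : Sys N B) (s : ℕ) (j : Fin N) : A.Nm s j ≤ ∑ r ∈ range s, A.W r j := by
  induction s with
  | zero =>
    rw [Finset.sum_range_zero]
    apply le_of_eq
    unfold Sys.Nm
    refine Finset.sum_eq_zero fun b _ => Finset.sum_eq_zero fun S _ => ?_
    split_ifs with h
    · have : S ≠ ∅ := fun h2 => by rw [h2] at h; simp at h
      simp [Sys.φ, this]
    · rfl
  | succ s ih =>
    rw [Finset.sum_range_succ]
    linarith [A.Nm_succ s j]

/-! ### contact mass -/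

lemma Sys.contact (A : Sys N B) {T : ℕ} (hA : A.Aware T) {s : ℕ} (hs : s ≤ T) {δ : ℝ}
    (hδ : ∀ j, A.Nm s j ≤ δ) {k : ℕ} (h : Finset (Fin N) → ℝ) (hh : Hom k h) :
    ∑ b, ∑ w, ‖Cc h (A.φ s b) w‖ ^ 2 ≤ 4 ^ N * (k * δ * ∑ R, (h R) ^ 2) := by
  set m : Finset (Fin N) → ℝ := fun S => ∑ b, ‖A.φ s b S‖ ^ 2 with hm
  have hm1 : ∑ S, m S = 1 := by
    rw [← A.mass s, hm, Finset.sum_comm]
    rfl
  have h1 : 4 ^ N * ∑ R, (h R) ^ 2 = 4 ^ N * (∑ p ∈ sD N, (h p.1) ^ 2 * m p.2) +
      ∑ b, ∑ w, ‖Cc h (A.φ s b) w‖ ^ 2 := by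
    rw [← sum_norm_hz]
    have h2 : ∑ w, ‖hz h w‖ ^ 2 = ∑ b, ∑ w, ‖hz h w‖ ^ 2 * ‖ev (A.φ s b) w‖ ^ 2 := by
      rw [Finset.sum_comm]
      refine Finset.sum_congr rfl fun w _ => ?_
      rw [← Finset.mul_sum, A.norm_ext hA s hs w, mul_one]
    rw [h2]
    simp only [sum_hz_ev h hh]
    rw [Finset.sum_add_distrib, ← Finset.mul_sum, Finset.sum_comm]
    congr 2
    refine Finset.sum_congr rfl fun p _ => ?_
    rw [← Finset.mul_sum]
  have h3 : ∑ R, (h R) ^ 2 = (∑ p ∈ sD N, (h p.1) ^ 2 * m p.2) +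
      ∑ p ∈ sC N, (h p.1) ^ 2 * m p.2 := by
    unfold sD sC
    rw [Finset.sum_filter_add_sum_filter_not, Fintype.sum_prod_type]
    refine Finset.sum_congr rfl fun R _ => ?_
    show (h R) ^ 2 = ∑ S, (h R) ^ 2 * m S
    rw [← Finset.mul_sum, hm1, mul_one]
  have h4 : ∑ p ∈ sC N, (h p.1) ^ 2 * m p.2 ≤ k * δ * ∑ R, (h R) ^ 2 := by
    unfold sC
    rw [Finset.sum_filter, Fintype.sum_prod_type, Finset.mul_sum]
    refine Finset.sum_le_sum fun R _ => ?_
    have h5 : ∑ S, (if ¬ Disjoint R S then (h R) ^ 2 * m S else 0) ≤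
        (h R) ^ 2 * ∑ j ∈ R, A.Nm s j := by
      have h6 : ∑ j ∈ R, A.Nm s j = ∑ S, ∑ j ∈ R, if j ∈ S then m S else 0 := by
        rw [Finset.sum_comm]
        refine Finset.sum_congr rfl fun j _ => ?_
        unfold Sys.Nm
        rw [Finset.sum_comm]
        refine Finset.sum_congr rfl fun S _ => ?_
        split_ifs <;> simp [hm]
      rw [h6, Finset.mul_sum]
      refine Finset.sum_le_sum fun S _ => ?_
      have hm0 : 0 ≤ m S := Finset.sum_nonneg fun _ _ => by positivity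
      have h7 : 0 ≤ ∑ j ∈ R, (if j ∈ S then m S else 0) :=
        Finset.sum_nonneg fun j _ => by split_ifs; exacts [hm0, le_rfl]
      by_cases hd : Disjoint R S
      · rw [if_neg (not_not.mpr hd)]
        exact mul_nonneg (sq_nonneg _) h7
      · rw [if_pos hd]
        rw [Finset.not_disjoint_iff] at hd
        obtain ⟨i, hi, hi'⟩ := hd
        have h8 : m S ≤ ∑ j ∈ R, (if j ∈ S then m S else 0) := by
          have := Finset.single_le_sum (f := fun j => if j ∈ S then m S else 0)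
            (fun j _ => by split_ifs; exacts [hm0, le_rfl]) hi
          simpa [hi'] using this
        exact mul_le_mul_of_nonneg_left h8 (sq_nonneg _)
    refine h5.trans ?_
    by_cases hR : R.card = k
    · have h9 : ∑ j ∈ R, A.Nm s j ≤ k * δ := by
        calc ∑ j ∈ R, A.Nm s j ≤ ∑ j ∈ R, δ := Finset.sum_le_sum fun j _ => hδ j
          _ = k * δ := by rw [Finset.sum_const, nsmul_eq_mul, hR]
      calc (h R) ^ 2 * ∑ j ∈ R, A.Nm s j ≤ (h R) ^ 2 * (k * δ) :=
            mul_le_mul_of_nonneg_left h9 (sq_nonneg _)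
        _ = k * δ * (h R) ^ 2 := by ring
    · rw [hh R hR]; simp
  have h5 : (0 : ℝ) < 4 ^ N := by positivity
  have h6 : ∑ b, ∑ w, ‖Cc h (A.φ s b) w‖ ^ 2 = 4 ^ N * ∑ p ∈ sC N, (h p.1) ^ 2 * m p.2 := by
    rw [h3] at h1
    linarith
  rw [h6]
  exact mul_le_mul_of_nonneg_left h4 h5.le

/-- weights against a homogeneous multiplier -/
lemma Sys.weight_hz (A : Sys N B) {T : ℕ} (hA : A.Aware T) {s : ℕ} (hs : s ≤ T) {δ : ℝ}
    (hδ : ∀ j, A.Nm s j ≤ δ) (j : Fin N) (hW : A.W s j ≤ δ) {k : ℕ} (g : Finset (Fin N) → ℝ)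
    (hg : Hom k g) :
    ∑ b, (if A.q b = some j then ∑ w, ‖hz g w‖ ^ 2 * ‖ev (A.φ s b) w‖ ^ 2 else 0) ≤
      4 ^ N * ((k + 1) * δ * ∑ R, (g R) ^ 2) := by
  have h4N : (0 : ℝ) < 4 ^ N := by positivity
  have h1 : ∀ b, (if A.q b = some j then ∑ w, ‖hz g w‖ ^ 2 * ‖ev (A.φ s b) w‖ ^ 2 else 0) ≤
      4 ^ N * ((∑ R, (g R) ^ 2) * (if A.q b = some j then n2 (A.φ s b) else 0)) +
        ∑ w, ‖Cc g (A.φ s b) w‖ ^ 2 := by
    intro b
    have hC : 0 ≤ ∑ w, ‖Cc g (A.φ s b) w‖ ^ 2 := Finset.sum_nonneg fun _ _ => by positivity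
    split_ifs with hq
    · rw [sum_hz_ev g hg]
      have h2 : ∑ p ∈ sD N, (g p.1) ^ 2 * ‖A.φ s b p.2‖ ^ 2 ≤
          (∑ R, (g R) ^ 2) * n2 (A.φ s b) := by
        unfold n2
        rw [Finset.sum_mul_sum, ← Fintype.sum_prod_type']
        exact Finset.sum_le_sum_of_subset_of_nonneg (Finset.subset_univ _)
          fun p _ _ => by positivity
      have := mul_le_mul_of_nonneg_left h2 h4N.le
      linarith
    · simpa using hC
  refine (Finset.sum_le_sum fun b _ => h1 b).trans ?_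
  rw [Finset.sum_add_distrib, ← Finset.mul_sum, ← Finset.mul_sum]
  have h2 := A.contact hA hs hδ g hg
  have h3 : ∑ b, (if A.q b = some j then n2 (A.φ s b) else 0) ≤ δ := hW
  have h4 : 0 ≤ ∑ R, (g R) ^ 2 := Finset.sum_nonneg fun _ _ => sq_nonneg _
  have h5 := mul_le_mul_of_nonneg_left (mul_le_mul_of_nonneg_left h3 h4) h4N.le
  calc _ ≤ 4 ^ N * ((∑ R, (g R) ^ 2) * δ) + 4 ^ N * (k * δ * ∑ R, (g R) ^ 2) := add_le_add h5 h2
    _ = _ := by ring

end

end Pool.Agent.H.MP_58d537_lc.H52
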