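import Pool.Agent.H.MP_58d537_lc.H52.Aware

/-!
# Correlation of the acceptance probability with a homogeneous function
-/

set_option autoImplicit false

open Finset ComplexConjugate Matrix

namespace Pool.Agent.H.MP_58d537_lc.H52

noncomputable section

variable {N : ℕ} {B : Type*} [Fintype B]

lemma Mc_sum (h : Finset (Fin N) → ℝ) (c : B → ℂ) (F : B → Finset (Fin N) → ℂ)
    (S : Finset (Fin N)) :
    Mc h (fun S => ∑ b, c b * F b S) S = ∑ b, c b * Mc h (F b) S := by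
  unfold Mc
  simp only [Finset.mul_sum]
  rw [Finset.sum_comm]
  refine Finset.sum_congr rfl fun b _ => Finset.sum_congr rfl fun S _ => ?_
  ring

lemma Wc_sum (h : Finset (Fin N) → ℝ) (c : B → ℂ) (F : B → Finset (Fin N) → ℂ)
    (S : Finset (Fin N)) :
    Wc h (fun S => ∑ b, c b * F b S) S = ∑ b, c b * Wc h (F b) S := by
  unfold Wc
  simp only [Finset.mul_sum]
  rw [Finset.sum_comm]
  refine Finset.sum_congr rfl fun b _ => Finset.sum_congr rfl fun S _ => ?_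
  ring

/-- commutator term -/
def Sys.Er (A : Sys N B) (h : Finset (Fin N) → ℝ) (s : ℕ) (b : B) (S : Finset (Fin N)) : ℂ :=
  shq (A.q b) (Wc h (A.φ s b)) S - Wc h (shq (A.q b) (A.φ s b)) S

/-- contact part on the cube -/
def Sys.K (A : Sys N B) (h : Finset (Fin N) → ℝ) (s : ℕ) (b : B) (S : Finset (Fin N)) : ℂ :=
  Mc h (A.φ s b) S - Wc h (A.φ s b) S

lemma Sys.K_zero (A : Sys N B) (h : Finset (Fin N) → ℝ) (b : B) (S : Finset (Fin N)) :
    A.K h 0 b S = 0 := by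
  unfold Sys.K Mc Wc
  rw [Finset.sum_eq_single ∅, Finset.sum_eq_single ∅]
  · have h1 : symmDiff S ∅ = S := symmDiff_bot S
    simp [Sys.φ, h1]
  · intro R _ hR
    simp [Sys.φ, hR]
  · intro h; exact absurd (Finset.mem_univ _) h
  · intro R _ hR
    simp [Sys.φ, hR]
  · intro h; exact absurd (Finset.mem_univ _) h

lemma Sys.K_succ (A : Sys N B) (h : Finset (Fin N) → ℝ) (s : ℕ) (b : B) :
    A.K h (s + 1) b =
      fun S => ∑ b', A.U s b b' * (shq (A.q b') (A.K h s b') S + A.Er h s b' S) := by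
  funext S
  have h1 : Mc h (A.φ (s + 1) b) S = ∑ b', A.U s b b' * Mc h (shq (A.q b') (A.φ s b')) S :=
    Mc_sum h (A.U s b) (fun b' => shq (A.q b') (A.φ s b')) S
  have h2 : Wc h (A.φ (s + 1) b) S = ∑ b', A.U s b b' * Wc h (shq (A.q b') (A.φ s b')) S :=
    Wc_sum h (A.U s b) (fun b' => shq (A.q b') (A.φ s b')) S
  show Mc h (A.φ (s + 1) b) S - Wc h (A.φ (s + 1) b) S = _
  rw [h1, h2, ← Finset.sum_sub_distrib]
  refine Finset.sum_congr rfl fun b' _ => ?_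
  rw [Mc_shq, ← mul_sub]
  congr 1
  unfold Sys.Er
  have h3 : shq (A.q b') (A.K h s b') S =
      shq (A.q b') (Mc h (A.φ s b')) S - shq (A.q b') (Wc h (A.φ s b')) S :=
    shq_sub (A.q b') (Mc h (A.φ s b')) (Wc h (A.φ s b')) S
  rw [h3]
  ring

lemma Sys.n2_Er (A : Sys N B) {T : ℕ} (hA : A.Aware T) {s : ℕ} (hs : s < T)
    (h : Finset (Fin N) → ℝ) (b : B) :
    4 ^ N * n2 (A.Er h s b) ≤
      ∑ j, if A.q b = some j then ∑ w, ‖hz (Dj j h) w‖ ^ 2 * ‖ev (A.φ s b) w‖ ^ 2 else 0 := by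
  cases hq : A.q b with
  | none =>
    have h1 : A.Er h s b = fun _ => 0 := by
      funext S
      unfold Sys.Er
      rw [hq]
      simp [shq]
    rw [h1]
    simp [n2]
  | some j =>
    have h0 : ∑ i, (if some j = some i then
        ∑ w, ‖hz (Dj i h) w‖ ^ 2 * ‖ev (A.φ s b) w‖ ^ 2 else 0) =
        ∑ w, ‖hz (Dj j h) w‖ ^ 2 * ‖ev (A.φ s b) w‖ ^ 2 := by
      rw [Finset.sum_eq_single j]
      · simp
      · intro i _ hi
        rw [if_neg]
        intro h; exact hi (Option.some.inj h).symm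
      · intro h; exact absurd (Finset.mem_univ _) h
    rw [h0]
    rcases hA s hs b j hq with hE | hO
    · have h1 : A.Er h s b = Wc (Dj j h) (A.φ s b) := by
        funext S
        unfold Sys.Er
        rw [hq]
        show sh j (Wc h (A.φ s b)) S - Wc h (sh j (A.φ s b)) S = _
        rw [Wc_sh_even j h _ hE]
        ring
      rw [h1]
      exact n2_Wc_le _ _
    · have h1 : n2 (A.Er h s b) = n2 (Wc (Dj j h) (sh j (A.φ s b))) := by
        rw [← n2_sh j (Wc (Dj j h) (sh j (A.φ s b)))]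
        unfold n2
        refine Finset.sum_congr rfl fun S _ => ?_
        unfold Sys.Er
        rw [hq]
        show ‖sh j (Wc h (A.φ s b)) S - Wc h (sh j (A.φ s b)) S‖ ^ 2 = _
        rw [Wc_sh_odd j h _ hO]
        rw [show sh j (Wc h (A.φ s b)) S -
          (sh j (Wc h (A.φ s b)) S + sh j (Wc (Dj j h) (sh j (A.φ s b))) S) =
          -(sh j (Wc (Dj j h) (sh j (A.φ s b))) S) by ring, norm_neg]
      rw [h1]
      have h2 := n2_Wc_le (Dj j h) (sh j (A.φ s b))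
      simp only [norm_ev_sh (Or.inr hO)] at h2
      exact h2

lemma Sys.sum_n2_Er (A : Sys N B) {T : ℕ} (hA : A.Aware T) {s : ℕ} (hs : s < T) {δ : ℝ}
    (hδ : ∀ j, A.Nm s j ≤ δ) (hW : ∀ j, A.W s j ≤ δ) {k : ℕ}
    (h : Finset (Fin N) → ℝ) (hh : Hom (k + 1) h) :
    ∑ b, n2 (A.Er h s b) ≤ (k + 1) ^ 2 * δ * ∑ R, (h R) ^ 2 := by
  have h4N : (0 : ℝ) < 4 ^ N := by positivity
  have h1 : 4 ^ N * ∑ b, n2 (A.Er h s b) ≤ ∑ j, 4 ^ N * ((k + 1) * δ * ∑ R, (Dj j h R) ^ 2) := by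
    rw [Finset.mul_sum]
    refine (Finset.sum_le_sum fun b _ => A.n2_Er hA hs h b).trans ?_
    rw [Finset.sum_comm]
    exact Finset.sum_le_sum fun j _ => A.weight_hz hA hs.le hδ j (hW j) (Dj j h) (hh.Dj j)
  rw [← Finset.mul_sum, ← Finset.mul_sum, sum_sum_Dj_sq hh] at h1
  have h2 := le_of_mul_le_mul_left h1 h4N
  push_cast at h2
  calc _ ≤ _ := h2
    _ = _ := by ring

lemma norm_add_sq_le (u v : ℂ) {s : ℝ} (hs : 0 < s) :
    ‖u + v‖ ^ 2 ≤ (1 + 1 / s) * ‖u‖ ^ 2 + (1 + s) * ‖v‖ ^ 2 := by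
  have h1 : ‖u + v‖ ^ 2 ≤ (‖u‖ + ‖v‖) ^ 2 :=
    pow_le_pow_left₀ (norm_nonneg _) (norm_add_le u v) 2
  have h2 : (1 + 1 / s) * ‖u‖ ^ 2 + (1 + s) * ‖v‖ ^ 2 - (‖u‖ + ‖v‖) ^ 2 =
      (‖u‖ - s * ‖v‖) ^ 2 / s := by
    field_simp
    ring
  have h3 : 0 ≤ (‖u‖ - s * ‖v‖) ^ 2 / s := by positivity
  linarith

lemma Sys.K_norm (A : Sys N B) {T : ℕ} (hA : A.Aware T) {δ : ℝ}
    (hδ : ∀ s, s ≤ T → ∀ j, A.Nm s j ≤ δ) (hW : ∀ s, s < T → ∀ j, A.W s j ≤ δ) {k : ℕ}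
    (h : Finset (Fin N) → ℝ) (hh : Hom (k + 1) h) :
    ∀ s : ℕ, s ≤ T → ∑ b, n2 (A.K h s b) ≤ (s : ℝ) ^ 2 * ((k + 1) ^ 2 * δ * ∑ R, (h R) ^ 2) := by
  set Q : ℝ := (k + 1) ^ 2 * δ * ∑ R, (h R) ^ 2 with hQ
  intro s
  induction s with
  | zero =>
    intro _
    have h1 : ∀ b, n2 (A.K h 0 b) = 0 := by
      intro b
      unfold n2
      refine Finset.sum_eq_zero fun S _ => ?_
      rw [A.K_zero]; simp
    simp [h1]
  | succ s ih =>
    intro hs
    have hE := A.sum_n2_Er hA (by omega : s < T) (hδ s (by omega)) (hW s (by omega)) h hh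
    rw [← hQ] at hE
    simp only [A.K_succ]
    rw [A.sum_n2 s (fun b' S => shq (A.q b') (A.K h s b') S + A.Er h s b' S)]
    rcases Nat.eq_zero_or_pos s with h0 | h0
    · subst h0
      have h1 : ∀ b, n2 (fun S => shq (A.q b) (A.K h 0 b) S + A.Er h 0 b S) =
          n2 (A.Er h 0 b) := by
        intro b
        unfold n2
        refine Finset.sum_congr rfl fun S _ => ?_
        have : shq (A.q b) (A.K h 0 b) S = 0 := by
          cases A.q b with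
          | none => exact A.K_zero h b S
          | some j => exact A.K_zero h b _
        show ‖shq (A.q b) (A.K h 0 b) S + A.Er h 0 b S‖ ^ 2 = _
        rw [this, zero_add]
      simp only [h1]
      simpa using hE
    · have hs' : (0 : ℝ) < s := by exact_mod_cast h0
      have i1 := ih (by omega)
      have h1 : ∀ b, n2 (fun S => shq (A.q b) (A.K h s b) S + A.Er h s b S) ≤
          (1 + 1 / (s : ℝ)) * n2 (A.K h s b) + (1 + (s : ℝ)) * n2 (A.Er h s b) := by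
        intro b
        rw [← n2_shq (A.q b) (A.K h s b)]
        unfold n2
        rw [Finset.mul_sum, Finset.mul_sum, ← Finset.sum_add_distrib]
        exact Finset.sum_le_sum fun S _ => norm_add_sq_le _ _ hs'
      refine (Finset.sum_le_sum fun b _ => h1 b).trans ?_
      rw [Finset.sum_add_distrib, ← Finset.mul_sum, ← Finset.mul_sum]
      calc _ ≤ (1 + 1 / (s : ℝ)) * ((s : ℝ) ^ 2 * Q) + (1 + (s : ℝ)) * Q := by gcongr
        _ = ((s + 1 : ℕ) : ℝ) ^ 2 * Q := by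
          push_cast
          field_simp
          ring

/-- Cauchy-Schwarz -/
lemma norm_sum_conj_sq_le {ι : Type*} (I : Finset ι) (x y : ι → ℂ) :
    ‖∑ i ∈ I, conj (x i) * y i‖ ^ 2 ≤ (∑ i ∈ I, ‖x i‖ ^ 2) * ∑ i ∈ I, ‖y i‖ ^ 2 := by
  have h1 : ‖∑ i ∈ I, conj (x i) * y i‖ ≤ ∑ i ∈ I, ‖x i‖ * ‖y i‖ := by
    refine (norm_sum_le _ _).trans (le_of_eq ?_)
    refine Finset.sum_congr rfl fun i _ => ?_
    rw [norm_mul, RCLike.norm_conj]
  calc _ ≤ (∑ i ∈ I, ‖x i‖ * ‖y i‖) ^ 2 := pow_le_pow_left₀ (norm_nonneg _) h1 2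
    _ ≤ _ := Finset.sum_mul_sq_le_sq_mul_sq _ _ _

lemma norm_sum_conj_sq_le2 {W : Type*} [Fintype W] (I : Finset B) (x y : B → W → ℂ) :
    ‖∑ b ∈ I, ∑ w, conj (x b w) * y b w‖ ^ 2 ≤
      (∑ b, ∑ w, ‖x b w‖ ^ 2) * ∑ b, ∑ w, ‖y b w‖ ^ 2 := by
  rw [← Finset.sum_product']
  refine (norm_sum_conj_sq_le _ (fun p : B × W => x p.1 p.2) (fun p => y p.1 p.2)).trans ?_
  rw [Finset.sum_product' I univ (fun b w => ‖x b w‖ ^ 2),
    Finset.sum_product' I univ (fun b w => ‖y b w‖ ^ 2)]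
  apply mul_le_mul
  · exact Finset.sum_le_sum_of_subset_of_nonneg (Finset.subset_univ _)
      fun b _ _ => Finset.sum_nonneg fun _ _ => by positivity
  · exact Finset.sum_le_sum_of_subset_of_nonneg (Finset.subset_univ _)
      fun b _ _ => Finset.sum_nonneg fun _ _ => by positivity
  · exact Finset.sum_nonneg fun b _ => Finset.sum_nonneg fun _ _ => by positivity
  · exact Finset.sum_nonneg fun b _ => Finset.sum_nonneg fun _ _ => by positivity

/-- **Correlation bound** for an aware algorithm with light bits. -/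
theorem Sys.corr (A : Sys N B) {T : ℕ} (hA : A.Aware T) {δ : ℝ} (hδ0 : 0 ≤ δ)
    (hM : ∀ j, ∑ s ∈ range T, A.W s j ≤ δ) {k : ℕ}
    (h : Finset (Fin N) → ℝ) (hh : Hom (k + 1) h) (Acc : Finset B) :
    ‖∑ b ∈ Acc, ∑ S, conj (A.φ T b S) * Mc h (A.φ T b) S‖ ^ 2 ≤
      ((1 + T) * (k + 1)) ^ 2 * δ * ∑ R, (h R) ^ 2 := by
  have hδ : ∀ s, s ≤ T → ∀ j, A.Nm s j ≤ δ := by
    intro s hs j
    refine (A.Nm_le s j).trans (le_trans ?_ (hM j))
    exact Finset.sum_le_sum_of_subset_of_nonneg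
      (Finset.range_mono hs) fun r _ _ => A.W_nonneg r j
  have hW : ∀ s, s < T → ∀ j, A.W s j ≤ δ := by
    intro s hs j
    exact (Finset.single_le_sum (f := fun s => A.W s j) (fun r _ => A.W_nonneg r j)
      (Finset.mem_range.mpr hs)).trans (hM j)
  have h4N : (0 : ℝ) < 4 ^ N := by positivity
  have hH0 : 0 ≤ ∑ R, (h R) ^ 2 := Finset.sum_nonneg fun _ _ => sq_nonneg _
  set H2 := ∑ R, (h R) ^ 2 with hH2
  set X1 := ∑ b ∈ Acc, ∑ S, conj (A.φ T b S) * Wc h (A.φ T b) S with hX1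
  set X2 := ∑ b ∈ Acc, ∑ S, conj (A.φ T b S) * A.K h T b S with hX2
  have hX : ∑ b ∈ Acc, ∑ S, conj (A.φ T b S) * Mc h (A.φ T b) S = X1 + X2 := by
    rw [hX1, hX2, ← Finset.sum_add_distrib]
    refine Finset.sum_congr rfl fun b _ => ?_
    rw [← Finset.sum_add_distrib]
    refine Finset.sum_congr rfl fun S _ => ?_
    unfold Sys.K
    ring
  have b2 : ‖X2‖ ^ 2 ≤ (T : ℝ) ^ 2 * ((k + 1) ^ 2 * δ * H2) := by
    have h1 := norm_sum_conj_sq_le2 Acc (fun b S => A.φ T b S) (fun b S => A.K h T b S)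
    have h2 := A.K_norm hA hδ hW h hh T le_rfl
    have h3 := A.mass T
    unfold n2 at h2 h3
    rw [h3, one_mul] at h1
    exact h1.trans h2
  have b1 : ‖X1‖ ^ 2 ≤ (k + 1) * δ * H2 := by
    have h1 : 4 ^ N * X1 = ∑ b ∈ Acc, ∑ w, conj (Cc h (A.φ T b) w) * ev (A.φ T b) w := by
      rw [hX1, Finset.mul_sum]
      refine Finset.sum_congr rfl fun b _ => ?_
      exact sum_conj_Wc (by omega) h hh _
    have h2 := norm_sum_conj_sq_le2 Acc (fun b w => Cc h (A.φ T b) w)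
      (fun b w => ev (A.φ T b) w)
    rw [← h1] at h2
    have h3 : ∑ b, ∑ w, ‖ev (A.φ T b) w‖ ^ 2 = 4 ^ N := by
      rw [Finset.sum_comm]
      have : ∀ w ∈ (univ : Finset (Fin N → ZMod 4)), ∑ b, ‖ev (A.φ T b) w‖ ^ 2 = 1 :=
        fun w _ => A.norm_ext hA T le_rfl w
      rw [Finset.sum_congr rfl this]
      simp [ZMod.card]
    have h4 := A.contact hA le_rfl (hδ T le_rfl) h hh
    rw [h3, norm_mul, mul_pow] at h2
    have h5 : ‖(4 : ℂ) ^ N‖ ^ 2 = 4 ^ N * 4 ^ N := by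
      rw [norm_pow]; norm_num; ring
    rw [h5] at h2
    have h6 : (4 : ℝ) ^ N * 4 ^ N * ‖X1‖ ^ 2 ≤ 4 ^ N * 4 ^ N * ((k + 1) * δ * H2) := by
      refine h2.trans ?_
      have := mul_le_mul_of_nonneg_right h4 h4N.le
      push_cast at this
      calc _ ≤ _ := this
        _ = _ := by ring
    exact le_of_mul_le_mul_left h6 (by positivity)
  rw [hX]
  have hQ0 : 0 ≤ (k + 1 : ℝ) ^ 2 * δ * H2 := by positivity
  set Q := (k + 1 : ℝ) ^ 2 * δ * H2 with hQ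
  have c1 : ‖X1‖ ≤ Real.sqrt Q := by
    apply Real.le_sqrt_of_sq_le
    refine b1.trans ?_
    rw [hQ]
    have : (k + 1 : ℝ) ≤ (k + 1 : ℝ) ^ 2 := by nlinarith [(Nat.cast_nonneg k : (0 : ℝ) ≤ k)]
    gcongr
  have c2 : ‖X2‖ ≤ T * Real.sqrt Q := by
    have h1 : ‖X2‖ ≤ Real.sqrt ((T : ℝ) ^ 2 * Q) := Real.le_sqrt_of_sq_le b2
    rwa [Real.sqrt_mul (by positivity), Real.sqrt_sq (by positivity)] at h1
  have c3 : ‖X1 + X2‖ ≤ (1 + T) * Real.sqrt Q := by
    refine (norm_add_le _ _).trans ?_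
    linarith
  calc ‖X1 + X2‖ ^ 2 ≤ ((1 + T) * Real.sqrt Q) ^ 2 := pow_le_pow_left₀ (norm_nonneg _) c3 2
    _ = (1 + T) ^ 2 * Q := by rw [mul_pow, Real.sq_sqrt hQ0]
    _ = _ := by rw [hQ]; ring

end

end Pool.Agent.H.MP_58d537_lc.H52
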