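import Pool.Agent.H.MP_58d537_lc.H52.Corr
import Pool.Agent.H.MP_58d537_lc.Cube

/-!
# From coefficient arrays to the cube; variance of light aware algorithms
-/

set_option autoImplicit false

open Finset ComplexConjugate Matrix

namespace Pool.Agent.H.MP_58d537_lc.H52

noncomputable section

variable {N : ℕ}

/-- sign of a bit -/
def sgn (j : Fin N) (x : Fin N → Bool) : ℝ := if x j then -1 else 1

lemma sgn_mul_self (j : Fin N) (x : Fin N → Bool) : sgn j x * sgn j x = 1 := by
  unfold sgn; split_ifs <;> norm_num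

lemma sgn_flip_self (j : Fin N) (x : Fin N → Bool) : sgn j (flip j x) = - sgn j x := by
  unfold sgn flip
  simp only [Function.update_self]
  cases x j <;> simp

lemma sgn_flip_ne {i j : Fin N} (h : i ≠ j) (x : Fin N → Bool) : sgn i (flip j x) = sgn i x := by
  unfold sgn flip
  simp [h]

/-- Walsh characters -/
def chr (A : Finset (Fin N)) (x : Fin N → Bool) : ℝ := ∏ j, if j ∈ A then sgn j x else 1

lemma chr_empty (x : Fin N → Bool) : chr ∅ x = 1 := by simp [chr]

lemma chr_symmDiff (A B : Finset (Fin N)) (x : Fin N → Bool) :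
    chr (symmDiff A B) x = chr A x * chr B x := by
  unfold chr
  rw [← Finset.prod_mul_distrib]
  refine Finset.prod_congr rfl fun j _ => ?_
  have := sgn_mul_self j x
  by_cases h1 : j ∈ A <;> by_cases h2 : j ∈ B <;> simp [Finset.mem_symmDiff, h1, h2, this]

lemma chr_mul_self (A : Finset (Fin N)) (x : Fin N → Bool) : chr A x * chr A x = 1 := by
  rw [← chr_symmDiff, symmDiff_self]
  exact chr_empty x

lemma chr_singleton (j : Fin N) (x : Fin N → Bool) : chr {j} x = sgn j x := by
  unfold chr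
  rw [Finset.prod_eq_single j]
  · simp
  · intro i _ hi
    simp [hi]
  · intro h; exact absurd (Finset.mem_univ _) h

lemma chr_flip_mem {j : Fin N} {A : Finset (Fin N)} (h : j ∈ A) (x : Fin N → Bool) :
    chr A (flip j x) = - chr A x := by
  unfold chr
  rw [← Finset.mul_prod_erase univ _ (Finset.mem_univ j),
    ← Finset.mul_prod_erase univ (fun i => if i ∈ A then sgn i x else 1) (Finset.mem_univ j)]
  simp only [h, if_true, sgn_flip_self]
  rw [neg_mul]
  congr 2
  refine Finset.prod_congr rfl fun i hi => ?_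
  rw [sgn_flip_ne (Finset.ne_of_mem_erase hi)]

lemma avg_chr (A : Finset (Fin N)) : avg (chr A) = if A = ∅ then 1 else 0 := by
  split_ifs with h
  · subst h
    have : chr (∅ : Finset (Fin N)) = fun _ => 1 := by funext x; exact chr_empty x
    rw [this, avg_const]
  · obtain ⟨j, hj⟩ := Finset.nonempty_iff_ne_empty.mpr h
    have h1 := avg_flip j (chr A)
    have h2 : (fun x => chr A (flip j x)) = fun x => (-1) * chr A x := by
      funext x; rw [chr_flip_mem hj]; ring
    rw [h2, avg_const_mul] at h1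
    linarith

lemma sum_chr (A : Finset (Fin N)) : ∑ x, chr A x = if A = ∅ then 2 ^ N else 0 := by
  have h1 := avg_chr A
  unfold avg at h1
  have h2 : (2 : ℝ) ^ N ≠ 0 := by positivity
  rw [div_eq_iff h2] at h1
  rw [h1]
  split_ifs <;> simp

lemma sum_chr_mul (A B : Finset (Fin N)) :
    ∑ x, chr A x * chr B x = if A = B then 2 ^ N else 0 := by
  simp only [← chr_symmDiff]
  rw [sum_chr]
  have : symmDiff A B = ∅ ↔ A = B := symmDiff_eq_bot
  simp only [this]

/-- value of an array at a point of the cube -/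
def val (G : Finset (Fin N) → ℂ) (x : Fin N → Bool) : ℂ := ∑ A, G A * (chr A x : ℂ)

lemma val_sh (j : Fin N) (G : Finset (Fin N) → ℂ) (x : Fin N → Bool) :
    val (sh j G) x = (sgn j x : ℂ) * val G x := by
  unfold val sh
  rw [sum_tog j, Finset.mul_sum]
  refine Finset.sum_congr rfl fun A _ => ?_
  rw [symmDiff_symmDiff_cancel_right, chr_symmDiff, chr_singleton]
  push_cast
  ring

lemma val_sum {B : Type*} [Fintype B] (c : B → ℂ) (F : B → Finset (Fin N) → ℂ)
    (x : Fin N → Bool) :
    val (fun S => ∑ b, c b * F b S) x = ∑ b, c b * val (F b) x := by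
  unfold val
  simp only [Finset.sum_mul, Finset.mul_sum]
  rw [Finset.sum_comm]
  refine Finset.sum_congr rfl fun b _ => Finset.sum_congr rfl fun S _ => ?_
  ring

lemma sum_val_mul (G : Finset (Fin N) → ℂ) (A : Finset (Fin N)) :
    ∑ x, val G x * (chr A x : ℂ) = 2 ^ N * G A := by
  unfold val
  simp only [Finset.sum_mul]
  rw [Finset.sum_comm, Finset.sum_eq_single A]
  · have h1 : ∀ x, G A * (chr A x : ℂ) * (chr A x : ℂ) = G A := by
      intro x
      rw [mul_assoc, ← Complex.ofReal_mul, chr_mul_self]; simp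
    simp only [h1]
    simp
  · intro S _ hS
    have h1 : ∀ x, G S * (chr S x : ℂ) * (chr A x : ℂ) = G S * ((chr S x * chr A x : ℝ) : ℂ) := by
      intro x; push_cast; ring
    simp only [h1]
    rw [← Finset.mul_sum, ← Complex.ofReal_sum, sum_chr_mul, if_neg hS]
    simp
  · intro h; exact absurd (Finset.mem_univ _) h

lemma Ev_of_val {j : Fin N} {G : Finset (Fin N) → ℂ} (h : ∀ x, val G (flip j x) = val G x) :
    Ev j G := by
  intro A hA
  have h1 := sum_val_mul G A
  have h2 : ∑ x, val G x * (chr A x : ℂ) = -∑ x, val G x * (chr A x : ℂ) := by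
    rw [← Finset.sum_neg_distrib, ← (flipEquiv j).sum_comp]
    refine Finset.sum_congr rfl fun x _ => ?_
    show val G (flip j x) * (chr A (flip j x) : ℂ) = _
    rw [h, chr_flip_mem hA]
    push_cast; ring
  have h3 : ∑ x, val G x * (chr A x : ℂ) = 0 := by
    have : (2 : ℂ) * ∑ x, val G x * (chr A x : ℂ) = 0 := by linear_combination h2
    rcases mul_eq_zero.mp this with h4 | h4
    · norm_num at h4
    · exact h4
  rw [h3] at h1
  rcases mul_eq_zero.mp h1.symm with h4 | h4
  · exact absurd h4 (pow_ne_zero _ two_ne_zero)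
  · exact h4

lemma chr_flip_notMem {j : Fin N} {A : Finset (Fin N)} (h : j ∉ A) (x : Fin N → Bool) :
    chr A (flip j x) = chr A x := by
  unfold chr
  refine Finset.prod_congr rfl fun i _ => ?_
  by_cases hi : i ∈ A
  · rw [if_pos hi, if_pos hi, sgn_flip_ne (show i ≠ j from fun h2 => h (h2 ▸ hi))]
  · rw [if_neg hi, if_neg hi]

lemma Od_of_val {j : Fin N} {G : Finset (Fin N) → ℂ} (h : ∀ x, val G (flip j x) = -val G x) :
    Od j G := by
  intro A hA
  have h1 := sum_val_mul G A
  have h2 : ∑ x, val G x * (chr A x : ℂ) = -∑ x, val G x * (chr A x : ℂ) := by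
    rw [← Finset.sum_neg_distrib, ← (flipEquiv j).sum_comp]
    refine Finset.sum_congr rfl fun x _ => ?_
    show val G (flip j x) * (chr A (flip j x) : ℂ) = _
    rw [h, chr_flip_notMem hA]
    ring
  have h3 : ∑ x, val G x * (chr A x : ℂ) = 0 := by
    have : (2 : ℂ) * ∑ x, val G x * (chr A x : ℂ) = 0 := by linear_combination h2
    rcases mul_eq_zero.mp this with h4 | h4
    · norm_num at h4
    · exact h4
  rw [h3] at h1
  rcases mul_eq_zero.mp h1.symm with h4 | h4
  · exact absurd h4 (pow_ne_zero _ two_ne_zero)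
  · exact h4

lemma symmDiff_sum {M : Type*} [AddCommMonoid M] (S : Finset (Fin N)) (f : Finset (Fin N) → M) :
    ∑ A, f A = ∑ R, f (symmDiff S R) := by
  refine (Equiv.sum_comp (⟨fun R => symmDiff S R, fun R => symmDiff S R, ?_, ?_⟩ :
    Finset (Fin N) ≃ Finset (Fin N)) f).symm
  · intro R; exact symmDiff_symmDiff_cancel_left _ _
  · intro R; exact symmDiff_symmDiff_cancel_left _ _

/-- autocorrelation of an array -/
def ac (G : Finset (Fin N) → ℂ) (R : Finset (Fin N)) : ℝ :=
  (∑ S, conj (G S) * G (symmDiff S R)).re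

lemma norm_val_sq (G : Finset (Fin N) → ℂ) (x : Fin N → Bool) :
    ‖val G x‖ ^ 2 = ∑ R, ac G R * chr R x := by
  have h1 : ((‖val G x‖ ^ 2 : ℝ) : ℂ) = conj (val G x) * val G x := by
    rw [Complex.conj_mul']; push_cast; rfl
  have h2 : conj (val G x) * val G x =
      ∑ R, (∑ S, conj (G S) * G (symmDiff S R)) * (chr R x : ℂ) := by
    unfold val
    rw [map_sum, Finset.sum_mul]
    simp only [Finset.sum_mul]
    rw [Finset.sum_comm (s := (univ : Finset (Finset (Fin N)))) (t := univ)
      (f := fun R S => conj (G S) * G (symmDiff S R) * (chr R x : ℂ))]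
    refine Finset.sum_congr rfl fun S _ => ?_
    rw [Finset.mul_sum, symmDiff_sum S]
    refine Finset.sum_congr rfl fun R _ => ?_
    rw [map_mul, Complex.conj_ofReal, chr_symmDiff]
    have : (chr S x : ℂ) * (chr S x : ℂ) = 1 := by
      rw [← Complex.ofReal_mul, chr_mul_self]; simp
    push_cast
    linear_combination (conj (G S) * G (symmDiff S R) * (chr R x : ℂ)) * this
  have h3 : ‖val G x‖ ^ 2 = (∑ R, (∑ S, conj (G S) * G (symmDiff S R)) * (chr R x : ℂ)).re := by
    rw [← h2, ← h1, Complex.ofReal_re]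
  rw [h3, Complex.re_sum]
  refine Finset.sum_congr rfl fun R _ => ?_
  rw [Complex.re_mul_ofReal]
  rfl

/-- value of a real array -/
lemma avg_sum_chr (g : Finset (Fin N) → ℝ) : avg (fun x => ∑ R, g R * chr R x) = g ∅ := by
  rw [avg_sum univ (fun R x => g R * chr R x)]
  simp only [avg_const_mul, avg_chr]
  simp

lemma avg_sq_sum_chr (g : Finset (Fin N) → ℝ) :
    avg (fun x => (∑ R, g R * chr R x) ^ 2) = ∑ R, (g R) ^ 2 := by
  have h1 : ∀ x, (∑ R, g R * chr R x) ^ 2 =
      ∑ R, ∑ S, (g R * g S) * chr (symmDiff R S) x := by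
    intro x
    rw [sq, Finset.sum_mul_sum]
    refine Finset.sum_congr rfl fun R _ => Finset.sum_congr rfl fun S _ => ?_
    rw [chr_symmDiff]; ring
  simp only [h1]
  rw [avg_sum univ (fun R x => ∑ S, (g R * g S) * chr (symmDiff R S) x)]
  refine Finset.sum_congr rfl fun R _ => ?_
  rw [avg_sum univ (fun S x => (g R * g S) * chr (symmDiff R S) x)]
  simp only [avg_const_mul, avg_chr]
  have h2 : ∀ S, symmDiff R S = ∅ ↔ R = S := fun S => symmDiff_eq_bot
  simp only [h2, mul_ite, mul_one, mul_zero]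
  rw [Finset.sum_ite_eq, if_pos (Finset.mem_univ _)]
  ring

lemma n2_eq_ac (G : Finset (Fin N) → ℂ) : n2 G = ac G ∅ := by
  unfold n2 ac
  rw [Complex.re_sum]
  refine Finset.sum_congr rfl fun S _ => ?_
  have h1 : symmDiff S ∅ = S := symmDiff_bot S
  rw [h1, Complex.conj_mul', ← Complex.ofReal_pow, Complex.ofReal_re]

lemma avg_norm_val_sq (G : Finset (Fin N) → ℂ) : avg (fun x => ‖val G x‖ ^ 2) = n2 G := by
  simp only [norm_val_sq]
  rw [avg_sum_chr, n2_eq_ac]

variable {B : Type*} [Fintype B]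

/-- the amplitudes on the cube -/
lemma Sys.val_succ (A : Sys N B) (s : ℕ) (b : B) (x : Fin N → Bool) :
    val (A.φ (s + 1) b) x = ∑ b', A.U s b b' *
      ((match A.q b' with | none => (1 : ℂ) | some j => (sgn j x : ℂ)) * val (A.φ s b') x) := by
  have h1 : val (A.φ (s + 1) b) x = ∑ b', A.U s b b' * val (shq (A.q b') (A.φ s b')) x :=
    val_sum (A.U s b) (fun b' => shq (A.q b') (A.φ s b')) x
  rw [h1]
  refine Finset.sum_congr rfl fun b' _ => ?_
  congr 1
  cases A.q b' with
  | none => simp [shq]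
  | some j => exact val_sh j _ x

lemma Sys.val_zero (A : Sys N B) (b : B) (x : Fin N → Bool) : val (A.φ 0 b) x = A.v0 b := by
  unfold val
  rw [Finset.sum_eq_single ∅]
  · simp [Sys.φ, chr_empty]
  · intro S _ hS
    simp [Sys.φ, hS]
  · intro h; exact absurd (Finset.mem_univ _) h

/-- degree -/
lemma Sys.deg (A : Sys N B) : ∀ (s : ℕ) (b : B) (S : Finset (Fin N)), s < S.card →
    A.φ s b S = 0 := by
  intro s
  induction s with
  | zero =>
    intro b S hS
    have : S ≠ ∅ := by
      intro h; rw [h] at hS; simp at hS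
    simp [Sys.φ, this]
  | succ s ih =>
    intro b S hS
    unfold Sys.φ
    refine Finset.sum_eq_zero fun b' _ => ?_
    have h1 : shq (A.q b') (A.φ s b') S = 0 := by
      cases A.q b' with
      | none => exact ih b' S (by omega)
      | some j =>
        apply ih
        have h2 : S.card ≤ (symmDiff S {j}).card + 1 := by
          have h3 : S ⊆ insert j (symmDiff S {j}) := by
            intro i hi
            rw [Finset.mem_insert, mem_tog]
            tauto
          exact (Finset.card_le_card h3).trans (Finset.card_insert_le _ _)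
        omega
    rw [h1, mul_zero]

/-- coefficients of the acceptance probability -/
def Sys.pr (A : Sys N B) (T : ℕ) (Acc : Finset B) (R : Finset (Fin N)) : ℝ :=
  ∑ b ∈ Acc, ac (A.φ T b) R

lemma Sys.prob (A : Sys N B) (T : ℕ) (Acc : Finset B) (x : Fin N → Bool) :
    ∑ b ∈ Acc, ‖val (A.φ T b) x‖ ^ 2 = ∑ R, A.pr T Acc R * chr R x := by
  simp only [norm_val_sq, Sys.pr, Finset.sum_mul]
  rw [Finset.sum_comm]

lemma Sys.pr_deg (A : Sys N B) (T : ℕ) (Acc : Finset B) (R : Finset (Fin N))
    (hR : 2 * T < R.card) : A.pr T Acc R = 0 := by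
  unfold Sys.pr
  refine Finset.sum_eq_zero fun b _ => ?_
  unfold ac
  rw [Finset.sum_eq_zero, Complex.zero_re]
  intro S _
  by_cases h1 : T < S.card
  · rw [A.deg T b S h1]; simp
  · have h2 : T < (symmDiff S R).card := by
      have h3 : R ⊆ S ∪ symmDiff S R := by
        intro i hi
        rw [Finset.mem_union, Finset.mem_symmDiff]
        tauto
      have h4 := (Finset.card_le_card h3).trans (Finset.card_union_le _ _)
      omega
    rw [A.deg T b _ h2, mul_zero]

lemma Sys.pr_mul (A : Sys N B) (T : ℕ) (Acc : Finset B) (h : Finset (Fin N) → ℝ) :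
    ∑ R, h R * A.pr T Acc R = (∑ b ∈ Acc, ∑ S, conj (A.φ T b S) * Mc h (A.φ T b) S).re := by
  have h1 : ∑ b ∈ Acc, ∑ S, conj (A.φ T b S) * Mc h (A.φ T b) S =
      ∑ R, (h R : ℂ) * ∑ b ∈ Acc, ∑ S, conj (A.φ T b S) * A.φ T b (symmDiff S R) := by
    have h2 : ∀ b S, Mc h (A.φ T b) S = ∑ R, (h R : ℂ) * A.φ T b (symmDiff S R) := by
      intro b S
      unfold Mc
      rw [symmDiff_sum S]
      refine Finset.sum_congr rfl fun R _ => ?_
      rw [symmDiff_symmDiff_cancel_left]
    simp only [h2, Finset.mul_sum]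
    rw [Finset.sum_comm (s := (univ : Finset (Finset (Fin N)))) (t := Acc)]
    refine Finset.sum_congr rfl fun b _ => ?_
    rw [Finset.sum_comm]
    refine Finset.sum_congr rfl fun R _ => Finset.sum_congr rfl fun S _ => ?_
    ring
  rw [h1, Complex.re_sum]
  refine Finset.sum_congr rfl fun R _ => ?_
  rw [Complex.re_ofReal_mul]
  unfold Sys.pr ac
  rw [Complex.re_sum]

/-- **Light aware algorithms have small variance.** -/
theorem Sys.light (A : Sys N B) {T : ℕ} (hA : A.Aware T) {δ : ℝ} (hδ0 : 0 ≤ δ)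
    (hM : ∀ j, ∑ s ∈ range T, A.W s j ≤ δ) (Acc : Finset B) :
    var (fun x => ∑ b ∈ Acc, ‖val (A.φ T b) x‖ ^ 2) ≤ 20 * T ^ 5 * δ := by
  have hp : (fun x => ∑ b ∈ Acc, ‖val (A.φ T b) x‖ ^ 2) =
      fun x => ∑ R, A.pr T Acc R * chr R x := by
    funext x; exact A.prob T Acc x
  rw [hp]
  unfold var
  rw [avg_sum_chr, avg_sq_sum_chr]
  set g := A.pr T Acc with hg
  -- the weight on level k+1
  set H : ℕ → ℝ := fun k => ∑ R, (if R.card = k + 1 then g R else 0) ^ 2 with hH
  have hlev : ∀ k, H k ≤ ((1 + T) * (k + 1)) ^ 2 * δ := by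
    intro k
    have hhom : Hom (k + 1) (fun R : Finset (Fin N) => if R.card = k + 1 then g R else 0) :=
      fun R hR => if_neg hR
    have h1 := A.corr hA hδ0 hM _ hhom Acc
    have h2 := A.pr_mul T Acc (fun R : Finset (Fin N) => if R.card = k + 1 then g R else 0)
    have h3 : ∑ R, (if R.card = k + 1 then g R else 0) * A.pr T Acc R = H k := by
      rw [hH]
      refine Finset.sum_congr rfl fun R _ => ?_
      rw [← hg]
      split_ifs <;> ring
    rw [h3] at h2
    have h4 : H k ^ 2 ≤ ((1 + T) * (k + 1)) ^ 2 * δ * H k := by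
      refine le_trans ?_ h1
      rw [h2, ← sq_abs]
      exact pow_le_pow_left₀ (abs_nonneg _) (Complex.abs_re_le_norm _) 2
    have hH0 : 0 ≤ H k := Finset.sum_nonneg fun _ _ => sq_nonneg _
    rcases hH0.eq_or_lt with h5 | h5
    · rw [← h5]; positivity
    · rw [sq (H k)] at h4
      exact le_of_mul_le_mul_right h4 h5
  have hsum : ∑ R, (g R) ^ 2 - (g ∅) ^ 2 = ∑ k ∈ range (2 * T), H k := by
    rw [hH]
    rw [Finset.sum_comm]
    rw [← Finset.add_sum_erase univ (fun R => (g R) ^ 2) (Finset.mem_univ ∅),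
      ← Finset.add_sum_erase univ (fun R : Finset (Fin N) => ∑ k ∈ range (2 * T),
        (if R.card = k + 1 then g R else 0) ^ 2) (Finset.mem_univ ∅)]
    have h1 : ∑ k ∈ range (2 * T), (if (∅ : Finset (Fin N)).card = k + 1 then g ∅ else 0) ^ 2 =
        0 := by
      refine Finset.sum_eq_zero fun k _ => ?_
      simp
    rw [h1, add_sub_cancel_left, zero_add]
    refine Finset.sum_congr rfl fun R hR => ?_
    have hR' : R ≠ ∅ := Finset.ne_of_mem_erase hR
    have hc : 1 ≤ R.card := Finset.card_pos.mpr (Finset.nonempty_iff_ne_empty.mpr hR')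
    by_cases h2 : R.card ≤ 2 * T
    · rw [Finset.sum_eq_single (R.card - 1)]
      · rw [if_pos (by omega)]
      · intro k _ hk
        rw [if_neg (by omega)]; ring
      · intro h3
        exact absurd (Finset.mem_range.mpr (by omega)) h3
    · have h3 : g R = 0 := A.pr_deg T Acc R (by omega)
      rw [h3]
      simp
  rw [hsum]
  refine (Finset.sum_le_sum fun k _ => hlev k).trans ?_
  rcases Nat.eq_zero_or_pos T with h0 | h0
  · subst h0; simp
  have hT : (1 : ℝ) ≤ T := by exact_mod_cast h0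
  have hs : ∀ n : ℕ, ∑ k ∈ range n, ((k : ℝ) + 1) ^ 2 =
      (n : ℝ) * (n + 1) * (2 * n + 1) / 6 := by
    intro n
    induction n with
    | zero => simp
    | succ n ih => rw [Finset.sum_range_succ, ih]; push_cast; ring
  have h1 : ∑ k ∈ range (2 * T), ((1 + (T : ℝ)) * ((k : ℝ) + 1)) ^ 2 * δ =
      (1 + (T : ℝ)) ^ 2 * δ * ∑ k ∈ range (2 * T), ((k : ℝ) + 1) ^ 2 := by
    rw [Finset.mul_sum]
    refine Finset.sum_congr rfl fun k _ => ?_
    ring
  rw [h1, hs]
  push_cast
  have h2 : (2 * (T : ℝ)) * (2 * T + 1) * (2 * (2 * T) + 1) / 6 ≤ 5 * T ^ 3 := by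
    have : (2 * (T : ℝ) + 1) * (4 * T + 1) ≤ 15 * T ^ 2 := by nlinarith
    nlinarith [this]
  have h3 : (1 + (T : ℝ)) ^ 2 ≤ 4 * T ^ 2 := by nlinarith
  calc (1 + (T : ℝ)) ^ 2 * δ * ((2 * (T : ℝ)) * (2 * T + 1) * (2 * (2 * T) + 1) / 6)
      ≤ (4 * T ^ 2) * δ * (5 * T ^ 3) := by gcongr
    _ = 20 * T ^ 5 * δ := by ring

end

end Pool.Agent.H.MP_58d537_lc.H52
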