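import Pool.Agent.H.MP_58d537_lc.H52.Cub
import Pool.Agent.H.MP_58d537_lc.Matrices
import Pool.Agent.H.MP_58d537_lc.Fixing

/-!
# Restrictions of a concrete query algorithm
-/

set_option autoImplicit false

open Finset ComplexConjugate Matrix

namespace Pool.Agent.H.MP_58d537_lc.H52

noncomputable section

lemma unit_sum {ι : Type*} [Fintype ι] [DecidableEq ι] (V : Matrix.unitaryGroup ι ℂ) (v : ι → ℂ) :
    ∑ b, ‖∑ b', V.1 b b' * v b'‖ ^ 2 = ∑ b, ‖v b‖ ^ 2 := by
  have h1 : ‖uE V (WithLp.toLp 2 v)‖ ^ 2 = ‖(WithLp.toLp 2 v : EuclideanSpace ℂ ι)‖ ^ 2 := by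
    rw [LinearIsometryEquiv.norm_map]
  rw [EuclideanSpace.norm_sq_eq, EuclideanSpace.norm_sq_eq, uE_apply] at h1
  exact h1

variable {N m T : ℕ}

/-- queried free bit -/
def qR (S₀ : Finset (Fin N)) (b : Option (Fin N) × Fin m) : Option (Fin N) :=
  match b.1 with
  | none => none
  | some i => if i ∈ S₀ then none else some i

/-- phase of the fixed bits -/
def cR (S₀ : Finset (Fin N)) (a₀ : Fin N → Bool) (b : Option (Fin N) × Fin m) : ℂ :=
  match b.1 with
  | none => 1
  | some i => if i ∈ S₀ then (if a₀ i then -1 else 1) else 1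

lemma norm_cR (S₀ : Finset (Fin N)) (a₀ : Fin N → Bool) (b : Option (Fin N) × Fin m) :
    ‖cR S₀ a₀ b‖ = 1 := by
  obtain ⟨o, v⟩ := b
  cases o with
  | none => simp [cR]
  | some i =>
    simp only [cR]
    split_ifs <;> simp

lemma phase_split (S₀ : Finset (Fin N)) (a₀ x : Fin N → Bool) (b : Option (Fin N) × Fin m) :
    Option.elim b.1 (1 : ℂ) (fun i => if (ovw S₀ a₀ x) i then -1 else 1) =
      cR S₀ a₀ b * (match qR S₀ b with | none => (1 : ℂ) | some j => (sgn j x : ℂ)) := by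
  obtain ⟨o, v⟩ := b
  cases o with
  | none => simp [cR, qR]
  | some i =>
    simp only [cR, qR, Option.elim_some, ovw]
    by_cases hi : i ∈ S₀
    · simp only [hi, if_true, mul_one]
    · simp only [hi, if_false, one_mul, sgn]
      split_ifs <;> simp

/-- the restricted algorithm -/
def sysR (U : Fin (T + 1) → Matrix.unitaryGroup (Option (Fin N) × Fin m) ℂ)
    (s₀ : Option (Fin N) × Fin m) (S₀ : Finset (Fin N)) (a₀ : Fin N → Bool) :
    Sys N (Option (Fin N) × Fin m) where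
  q := qR S₀
  U s := fun b b' => if h : s < T then (U ⟨s + 1, by omega⟩).1 b b' * cR S₀ a₀ b' else
    if b = b' then 1 else 0
  hU s v := by
    by_cases h : s < T
    · simp only [h, dif_pos]
      have h1 := unit_sum (U ⟨s + 1, by omega⟩) (fun b' => cR S₀ a₀ b' * v b')
      simp only [norm_mul, norm_cR, one_mul] at h1
      simp only [mul_assoc]
      exact h1
    · simp only [h, dif_neg, not_false_eq_true]
      simp
  v0 := (U 0).1 *ᵥ Pi.single s₀ 1
  hv0 := by
    have h1 := unit_sum (U 0) (Pi.single s₀ 1)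
    have h2 : ∑ b, ‖(Pi.single s₀ 1 : Option (Fin N) × Fin m → ℂ) b‖ ^ 2 = 1 := by
      rw [Finset.sum_eq_single s₀]
      · simp
      · intro b _ hb
        simp [hb]
      · intro h; exact absurd (Finset.mem_univ _) h
    rw [h2] at h1
    exact h1

variable (U : Fin (T + 1) → Matrix.unitaryGroup (Option (Fin N) × Fin m) ℂ)
    (s₀ : Option (Fin N) × Fin m)
    (ψ : Fin (T + 1) → (Fin N → Bool) → (Option (Fin N) × Fin m) → ℂ)
    (hψ₀ : ∀ x : Fin N → Bool, ψ 0 x = (U 0).1 *ᵥ Pi.single s₀ 1)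
    (hψ : ∀ (t : Fin T) (x : Fin N → Bool),
      ψ t.succ x = (U t.succ).1 *ᵥ (fun s =>
        Option.elim s.1 (1 : ℂ) (fun i => if x i then -1 else 1) * ψ t.castSucc x s))

include hψ₀ hψ in
lemma sysR_val (S₀ : Finset (Fin N)) (a₀ : Fin N → Bool) :
    ∀ (s : ℕ) (hs : s ≤ T) (b : Option (Fin N) × Fin m) (x : Fin N → Bool),
      val ((sysR U s₀ S₀ a₀).φ s b) x = ψ ⟨s, by omega⟩ (ovw S₀ a₀ x) b := by
  intro s
  induction s with
  | zero =>
    intro _ b x
    rw [Sys.val_zero]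
    exact (congrFun (hψ₀ (ovw S₀ a₀ x)) b).symm
  | succ s ih =>
    intro hs b x
    have hlt : s < T := hs
    rw [Sys.val_succ]
    have h1 := congrFun (hψ ⟨s, hlt⟩ (ovw S₀ a₀ x)) b
    refine Eq.trans ?_ h1.symm
    show _ = ∑ b', (U (Fin.succ ⟨s, hlt⟩)).1 b b' * _
    refine Finset.sum_congr rfl fun b' _ => ?_
    have h2 : (sysR U s₀ S₀ a₀).U s b b' =
        (U (Fin.succ ⟨s, hlt⟩)).1 b b' * cR S₀ a₀ b' := by
      show (if h : s < T then (U ⟨s + 1, by omega⟩).1 b b' * cR S₀ a₀ b' else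
        if b = b' then (1 : ℂ) else 0) = _
      rw [dif_pos hlt]
      rfl
    rw [h2, ih (by omega) b' x, phase_split]
    show (U (Fin.succ ⟨s, hlt⟩)).1 b b' * cR S₀ a₀ b' *
      ((match qR S₀ b' with | none => (1 : ℂ) | some j => (sgn j x : ℂ)) * _) = _
    rw [mul_assoc, mul_assoc]
    rfl

include hψ₀ hψ in
lemma norm_psi (x : Fin N → Bool) : ∀ (s : ℕ) (hs : s ≤ T),
    ∑ b, ‖ψ ⟨s, by omega⟩ x b‖ ^ 2 = 1 := by
  intro s
  induction s with
  | zero =>
    intro _
    have h1 : ψ ⟨0, by omega⟩ x = (U 0).1 *ᵥ Pi.single s₀ 1 := hψ₀ x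
    rw [h1]
    exact (sysR U s₀ ∅ x).hv0
  | succ s ih =>
    intro hs
    have hlt : s < T := hs
    have h1 : ψ ⟨s + 1, by omega⟩ x = _ := hψ ⟨s, hlt⟩ x
    rw [h1]
    refine (unit_sum (U (Fin.succ ⟨s, hlt⟩)) _).trans ?_
    rw [← ih (by omega)]
    refine Finset.sum_congr rfl fun b _ => ?_
    rw [norm_mul]
    have h2 : ‖Option.elim b.1 (1 : ℂ) (fun i => if x i then -1 else 1)‖ = 1 := by
      rcases b.1 with _ | i
      · simp
      · simp only [Option.elim_some]
        split_ifs <;> simp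
    rw [h2, one_mul]
    rfl

/-- total weight of the bit `j` on the oracle `x` -/
def wgt (j : Fin N) (x : Fin N → Bool) : ℝ :=
  ∑ t : Fin T, ∑ v : Fin m, ‖ψ t.castSucc x (some j, v)‖ ^ 2

lemma wgt_nonneg (j : Fin N) (x : Fin N → Bool) : 0 ≤ wgt ψ j x :=
  Finset.sum_nonneg fun _ _ => Finset.sum_nonneg fun _ _ => by positivity

include hψ₀ hψ in
lemma sum_wgt (x : Fin N → Bool) : ∑ j, wgt ψ j x ≤ T := by
  unfold wgt
  rw [Finset.sum_comm]
  have h1 : ∀ t : Fin T, ∑ j : Fin N, ∑ v : Fin m, ‖ψ t.castSucc x (some j, v)‖ ^ 2 ≤ 1 := by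
    intro t
    rw [← norm_psi U s₀ ψ hψ₀ hψ x t.val t.isLt.le]
    rw [Fintype.sum_prod_type, Fintype.sum_option]
    have h2 : (0 : ℝ) ≤ ∑ v : Fin m, ‖ψ ⟨t.val, by omega⟩ x (none, v)‖ ^ 2 :=
      Finset.sum_nonneg fun _ _ => by positivity
    have h3 : t.castSucc = (⟨t.val, by omega⟩ : Fin (T + 1)) := rfl
    rw [h3]
    linarith
  calc _ ≤ ∑ t : Fin T, (1 : ℝ) := Finset.sum_le_sum fun t _ => h1 t
    _ = T := by simp

include hψ₀ hψ in
/-- restrictions of aware algorithms in which all free bits are light -/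
theorem light_restr
    (haw : ∀ (t : Fin T) (i : Fin N) (v : Fin m),
      (∀ x, ψ t.castSucc (flip i x) (some i, v) = ψ t.castSucc x (some i, v)) ∨
      (∀ x, ψ t.castSucc (flip i x) (some i, v) = -ψ t.castSucc x (some i, v)))
    (Acc : Finset (Option (Fin N) × Fin m)) {δ : ℝ} (hδ0 : 0 ≤ δ)
    (S₀ : Finset (Fin N)) (a₀ : Fin N → Bool)
    (hl : ∀ j, j ∉ S₀ → avgR S₀ a₀ (wgt ψ j) ≤ δ) :
    var (fun x => ∑ b ∈ Acc, ‖ψ (Fin.last T) (ovw S₀ a₀ x) b‖ ^ 2) ≤ 20 * T ^ 5 * δ := by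
  set A := sysR U s₀ S₀ a₀ with hA
  have hval : ∀ (s : ℕ) (hs : s ≤ T) (b : Option (Fin N) × Fin m) (x : Fin N → Bool),
      val (A.φ s b) x = ψ ⟨s, by omega⟩ (ovw S₀ a₀ x) b := sysR_val U s₀ ψ hψ₀ hψ S₀ a₀
  have hq : ∀ (b : Option (Fin N) × Fin m) (j : Fin N), A.q b = some j →
      b.1 = some j ∧ j ∉ S₀ := by
    intro b j h
    obtain ⟨o, v⟩ := b
    change qR S₀ (o, v) = some j at h
    cases o with
    | none => simp [qR] at h
    | some i =>
      simp only [qR] at h
      by_cases hi : i ∈ S₀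
      · simp [hi] at h
      · simp only [hi, if_false, Option.some.injEq] at h
        subst h
        exact ⟨rfl, hi⟩
  have haware : A.Aware T := by
    intro s hs b j hb
    obtain ⟨h1, h2⟩ := hq b j hb
    obtain ⟨o, v⟩ := b
    simp only at h1
    subst h1
    rcases haw ⟨s, hs⟩ j v with h3 | h3
    · left
      apply Ev_of_val
      intro x
      rw [hval s hs.le, hval s hs.le, ovw_flip h2]
      exact h3 _
    · right
      apply Od_of_val
      intro x
      rw [hval s hs.le, hval s hs.le, ovw_flip h2]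
      exact h3 _
  have hM : ∀ j, ∑ s ∈ range T, A.W s j ≤ δ := by
    intro j
    by_cases hj : j ∈ S₀
    · have h1 : ∀ s, A.W s j = 0 := by
        intro s
        unfold Sys.W
        refine Finset.sum_eq_zero fun b _ => ?_
        rw [if_neg]
        intro h
        exact (hq b j h).2 hj
      simp [h1, hδ0]
    · have h1 : ∑ s ∈ range T, A.W s j = avgR S₀ a₀ (wgt ψ j) := by
        unfold avgR wgt
        rw [avg_sum univ (fun (t : Fin T) x => ∑ v : Fin m,
          ‖ψ t.castSucc (ovw S₀ a₀ x) (some j, v)‖ ^ 2), Finset.sum_range]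
        refine Finset.sum_congr rfl fun t _ => ?_
        rw [avg_sum univ (fun (v : Fin m) x => ‖ψ t.castSucc (ovw S₀ a₀ x) (some j, v)‖ ^ 2)]
        unfold Sys.W
        rw [Fintype.sum_prod_type, Finset.sum_eq_single (some j)]
        · refine Finset.sum_congr rfl fun v _ => ?_
          have h2 : A.q (some j, v) = some j := by
            show qR S₀ (some j, v) = some j
            simp [qR, hj]
          rw [if_pos h2, ← avg_norm_val_sq]
          congr 1
          funext x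
          rw [hval t.val t.isLt.le]
          rfl
        · intro o _ ho
          refine Finset.sum_eq_zero fun v _ => ?_
          rw [if_neg]
          intro h
          exact ho (hq (o, v) j h).1
        · intro h; exact absurd (Finset.mem_univ _) h
      rw [h1]
      exact hl j hj
  have h1 := A.light haware hδ0 hM Acc
  have h2 : (fun x => ∑ b ∈ Acc, ‖val (A.φ T b) x‖ ^ 2) =
      fun x => ∑ b ∈ Acc, ‖ψ (Fin.last T) (ovw S₀ a₀ x) b‖ ^ 2 := by
    funext x
    refine Finset.sum_congr rfl fun b _ => ?_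
    rw [hval T le_rfl]
    rfl
  rw [h2] at h1
  exact h1

end

end Pool.Agent.H.MP_58d537_lc.H52
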