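import Pool.Agent.H.MP_58d537_lc.H52.Arr

/-!
# Multilinear extension to the fourth roots of unity

`ev G w` is the value at the point `(i^{w_1}, …, i^{w_N})` of the multilinear polynomial with
coefficients `G`.
-/

set_option autoImplicit false

open Finset ComplexConjugate

namespace Pool.Agent.H.MP_58d537_lc.H52

noncomputable section

variable {N : ℕ}

/-- fourth roots of unity -/
def r4 (a : ZMod 4) : ℂ := Complex.I ^ a.val

lemma r4_zero : r4 0 = 1 := by simp [r4]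

lemma r4_add (a b : ZMod 4) : r4 (a + b) = r4 a * r4 b := by
  unfold r4
  rw [ZMod.val_add, ← Complex.I_pow_eq_pow_mod, pow_add]

lemma norm_r4 (a : ZMod 4) : ‖r4 a‖ = 1 := by simp [r4]

lemma conj_r4 (a : ZMod 4) : conj (r4 a) = r4 (-a) := by
  have h1 : r4 a * r4 (-a) = 1 := by rw [← r4_add, add_neg_cancel, r4_zero]
  have h2 : r4 a * conj (r4 a) = 1 := by
    rw [Complex.mul_conj, Complex.normSq_eq_norm_sq, norm_r4]; simp
  have h3 : r4 a ≠ 0 := by
    intro h; rw [h, zero_mul] at h1; exact zero_ne_one h1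
  exact mul_left_cancel₀ h3 (h2.trans h1.symm)

lemma sum_r4 (c : ZMod 4) : ∑ a : ZMod 4, r4 (c * a) = if c = 0 then 4 else 0 := by
  have hc : c = 0 ∨ c = 1 ∨ c = 2 ∨ c = 3 := by revert c; decide
  have hs : ∀ f : ZMod 4 → ℂ, ∑ a, f a = f 0 + f 1 + f 2 + f 3 := fun f => Fin.sum_univ_four f
  have h0 : r4 0 = 1 := r4_zero
  have h1 : r4 1 = Complex.I := by
    unfold r4; rw [show (1 : ZMod 4).val = 1 from rfl, pow_one]
  have h2 : r4 2 = -1 := by
    unfold r4; rw [show (2 : ZMod 4).val = 2 from rfl, Complex.I_sq]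
  have h3 : r4 3 = -Complex.I := by
    unfold r4; rw [show (3 : ZMod 4).val = 3 from rfl, pow_succ, Complex.I_sq]; ring
  rw [hs]
  rcases hc with rfl | rfl | rfl | rfl
  · simp [h0]; norm_num
  · rw [if_neg (by decide), show (1 : ZMod 4) * 0 = 0 by decide, show (1 : ZMod 4) * 1 = 1 by decide,
      show (1 : ZMod 4) * 2 = 2 by decide, show (1 : ZMod 4) * 3 = 3 by decide, h0, h1, h2, h3]
    ring
  · rw [if_neg (by decide), show (2 : ZMod 4) * 0 = 0 by decide, show (2 : ZMod 4) * 1 = 2 by decide,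
      show (2 : ZMod 4) * 2 = 0 by decide, show (2 : ZMod 4) * 3 = 2 by decide, h0, h2]
    ring
  · rw [if_neg (by decide), show (3 : ZMod 4) * 0 = 0 by decide, show (3 : ZMod 4) * 1 = 3 by decide,
      show (3 : ZMod 4) * 2 = 2 by decide, show (3 : ZMod 4) * 3 = 1 by decide, h0, h1, h2, h3]
    ring

/-- characters of `(ℤ/4)^N` -/
def ch4 (c w : Fin N → ZMod 4) : ℂ := ∏ j, r4 (c j * w j)

lemma ch4_add (c d w : Fin N → ZMod 4) : ch4 (c + d) w = ch4 c w * ch4 d w := by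
  unfold ch4
  rw [← Finset.prod_mul_distrib]
  refine Finset.prod_congr rfl fun j _ => ?_
  rw [Pi.add_apply, add_mul, r4_add]

lemma conj_ch4 (c w : Fin N → ZMod 4) : conj (ch4 c w) = ch4 (-c) w := by
  unfold ch4
  rw [map_prod]
  refine Finset.prod_congr rfl fun j _ => ?_
  rw [conj_r4, Pi.neg_apply, neg_mul]

lemma norm_ch4 (c w : Fin N → ZMod 4) : ‖ch4 c w‖ = 1 := by
  unfold ch4
  rw [norm_prod]
  exact Finset.prod_eq_one fun j _ => norm_r4 _

lemma conj_ch4_mul (c d w : Fin N → ZMod 4) : conj (ch4 c w) * ch4 d w = ch4 (d - c) w := by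
  rw [conj_ch4, ← ch4_add, neg_add_eq_sub]

lemma sum_ch4 (c : Fin N → ZMod 4) : ∑ w, ch4 c w = if c = 0 then (4 : ℂ) ^ N else 0 := by
  have h1 : ∑ w, ch4 c w = ∏ j, ∑ a : ZMod 4, r4 (c j * a) := by
    rw [Finset.prod_univ_sum, Fintype.piFinset_univ]
    rfl
  rw [h1]
  simp only [sum_r4]
  by_cases hc : c = 0
  · subst hc; simp
  · rw [if_neg hc]
    obtain ⟨j, hj⟩ : ∃ j, c j ≠ 0 := by
      by_contra h
      push Not at h
      exact hc (funext h)
    exact Finset.prod_eq_zero (Finset.mem_univ j) (if_neg hj)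

section pars

variable {ι κ : Type*}

lemma sum_conj_mul (S : Finset ι) (S' : Finset κ) (a : ι → ℂ) (b : κ → ℂ)
    (c : ι → (Fin N → ZMod 4)) (d : κ → (Fin N → ZMod 4)) :
    ∑ w, conj (∑ t ∈ S, a t * ch4 (c t) w) * (∑ t ∈ S', b t * ch4 (d t) w) =
      4 ^ N * ∑ t ∈ S, ∑ t' ∈ S', if c t = d t' then conj (a t) * b t' else 0 := by
  have h1 : ∀ w : Fin N → ZMod 4,
      conj (∑ t ∈ S, a t * ch4 (c t) w) * (∑ t ∈ S', b t * ch4 (d t) w) =
      ∑ t ∈ S, ∑ t' ∈ S', conj (a t) * b t' * ch4 (d t' - c t) w := by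
    intro w
    rw [map_sum, Finset.sum_mul_sum]
    refine Finset.sum_congr rfl fun t _ => Finset.sum_congr rfl fun t' _ => ?_
    rw [map_mul, ← conj_ch4_mul]
    ring
  simp only [h1]
  rw [Finset.sum_comm, Finset.mul_sum]
  refine Finset.sum_congr rfl fun t _ => ?_
  rw [Finset.sum_comm, Finset.mul_sum]
  refine Finset.sum_congr rfl fun t' _ => ?_
  rw [← Finset.mul_sum, sum_ch4]
  by_cases h : c t = d t'
  · rw [if_pos h, if_pos (by rw [h, sub_self])]
    ring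
  · rw [if_neg h, if_neg (fun h2 => h (sub_eq_zero.mp h2).symm)]
    ring

lemma sum_conj_mul_zero (S : Finset ι) (S' : Finset κ) (a : ι → ℂ) (b : κ → ℂ)
    (c : ι → (Fin N → ZMod 4)) (d : κ → (Fin N → ZMod 4))
    (h : ∀ t ∈ S, ∀ t' ∈ S', c t = d t' → a t = 0 ∨ b t' = 0) :
    ∑ w, conj (∑ t ∈ S, a t * ch4 (c t) w) * (∑ t ∈ S', b t * ch4 (d t) w) = 0 := by
  rw [sum_conj_mul]
  rw [Finset.sum_eq_zero, mul_zero]
  intro t ht
  refine Finset.sum_eq_zero fun t' ht' => ?_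
  by_cases h1 : c t = d t'
  · rw [if_pos h1]
    rcases h t ht t' ht' h1 with h2 | h2 <;> rw [h2] <;> simp
  · rw [if_neg h1]

lemma sum_norm_sq (S : Finset ι) (a : ι → ℂ) (c : ι → (Fin N → ZMod 4))
    (h : ∀ t ∈ S, ∀ t' ∈ S, c t = c t' → t = t') :
    ∑ w, ‖∑ t ∈ S, a t * ch4 (c t) w‖ ^ 2 = 4 ^ N * ∑ t ∈ S, ‖a t‖ ^ 2 := by
  classical
  have h1 := sum_conj_mul S S a a c c
  have h2 : ∀ t ∈ S, (∑ t' ∈ S, if c t = c t' then conj (a t) * a t' else 0) =
      ((‖a t‖ ^ 2 : ℝ) : ℂ) := by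
    intro t ht
    have h3 : ∀ t' ∈ S, (if c t = c t' then conj (a t) * a t' else 0) =
        if t = t' then conj (a t) * a t' else 0 := by
      intro t' ht'
      by_cases h4 : t = t'
      · subst h4; simp
      · rw [if_neg h4, if_neg (fun h5 => h4 (h t ht t' ht' h5))]
    rw [Finset.sum_congr rfl h3, Finset.sum_ite_eq, if_pos ht, Complex.conj_mul']
    push_cast; rfl
  rw [Finset.sum_congr rfl h2] at h1
  have h3 : ∀ z : ℂ, conj z * z = ((‖z‖ ^ 2 : ℝ) : ℂ) := by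
    intro z; rw [Complex.conj_mul']; push_cast; rfl
  simp only [h3] at h1
  have h4 : ((∑ w, ‖∑ t ∈ S, a t * ch4 (c t) w‖ ^ 2 : ℝ) : ℂ) =
      ((4 ^ N * ∑ t ∈ S, ‖a t‖ ^ 2 : ℝ) : ℂ) := by
    push_cast
    push_cast at h1
    exact h1
  exact_mod_cast h4

end pars

lemma sum_norm_add_sq {W : Type*} [Fintype W] (X Y : W → ℂ) (h : ∑ w, conj (X w) * Y w = 0) :
    ∑ w, ‖X w + Y w‖ ^ 2 = ∑ w, ‖X w‖ ^ 2 + ∑ w, ‖Y w‖ ^ 2 := by
  have h1 : ∀ w, ‖X w + Y w‖ ^ 2 = ‖X w‖ ^ 2 + ‖Y w‖ ^ 2 + 2 * (conj (X w) * Y w).re := by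
    intro w
    rw [← Complex.normSq_eq_norm_sq, ← Complex.normSq_eq_norm_sq, ← Complex.normSq_eq_norm_sq,
      Complex.normSq_add]
    congr 2
    simp [Complex.mul_re]
  simp only [h1]
  rw [Finset.sum_add_distrib, Finset.sum_add_distrib, ← Finset.mul_sum, ← Complex.re_sum, h]
  simp

/-- indicator charge -/
def ind (A : Finset (Fin N)) : Fin N → ZMod 4 := fun j => if j ∈ A then 1 else 0

/-- multilinear extension -/
def ev (G : Finset (Fin N) → ℂ) (w : Fin N → ZMod 4) : ℂ := ∑ A, G A * ch4 (ind A) w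

/-- extension of the multiplier -/
def hz (h : Finset (Fin N) → ℝ) (w : Fin N → ZMod 4) : ℂ := ∑ R, (h R : ℂ) * ch4 (ind R) w

lemma ind_sub_three (A R : Finset (Fin N)) (j : Fin N) :
    (ind A - ind R) j = 3 ↔ j ∈ R ∧ j ∉ A := by
  rw [Pi.sub_apply]
  unfold ind
  by_cases h1 : j ∈ A <;> by_cases h2 : j ∈ R <;> simp only [h1, h2, if_true, if_false] <;>
    decide

lemma ind_sub_one (A R : Finset (Fin N)) (j : Fin N) :
    (ind A - ind R) j = 1 ↔ j ∈ A ∧ j ∉ R := by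
  rw [Pi.sub_apply]
  unfold ind
  by_cases h1 : j ∈ A <;> by_cases h2 : j ∈ R <;> simp only [h1, h2, if_true, if_false] <;>
    decide

lemma ind_add_two (A R : Finset (Fin N)) (j : Fin N) :
    (ind R + ind A) j = 2 ↔ j ∈ R ∧ j ∈ A := by
  rw [Pi.add_apply]
  unfold ind
  by_cases h1 : j ∈ A <;> by_cases h2 : j ∈ R <;> simp only [h1, h2, if_true, if_false] <;>
    decide

lemma ind_ne_three (A : Finset (Fin N)) (j : Fin N) : ind A j ≠ 3 := by
  unfold ind
  by_cases h1 : j ∈ A <;> simp only [h1, if_true, if_false] <;> decide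

lemma ind_ne_two (A : Finset (Fin N)) (j : Fin N) : ind A j ≠ 2 := by
  unfold ind
  by_cases h1 : j ∈ A <;> simp only [h1, if_true, if_false] <;> decide

lemma ind_eq_one (A : Finset (Fin N)) (j : Fin N) : ind A j = 1 ↔ j ∈ A := by
  unfold ind
  by_cases h1 : j ∈ A <;> simp only [h1, if_true, if_false] <;> decide

lemma ind_inj {A B : Finset (Fin N)} (h : ind A = ind B) : A = B := by
  ext j
  rw [← ind_eq_one, h, ind_eq_one]

lemma ind_union {A R : Finset (Fin N)} (h : Disjoint R A) : ind R + ind A = ind (R ∪ A) := by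
  funext j
  rw [Pi.add_apply]
  unfold ind
  by_cases h1 : j ∈ A
  · have h2 : j ∉ R := fun h2 => Finset.disjoint_left.mp h h2 h1
    simp [h1, h2]
  · by_cases h2 : j ∈ R <;> simp [h1, h2]

lemma sum_norm_ev (G : Finset (Fin N) → ℂ) : ∑ w, ‖ev G w‖ ^ 2 = 4 ^ N * n2 G :=
  sum_norm_sq univ G ind fun _ _ _ _ h => ind_inj h

lemma sum_norm_hz (h : Finset (Fin N) → ℝ) : ∑ w, ‖hz h w‖ ^ 2 = 4 ^ N * ∑ R, (h R) ^ 2 := by
  have := sum_norm_sq univ (fun R => (h R : ℂ)) ind fun _ _ _ _ h => ind_inj h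
  simp only [Complex.norm_real, Real.norm_eq_abs, sq_abs] at this
  exact this

/-- disjoint pairs -/
def sD (N : ℕ) : Finset (Finset (Fin N) × Finset (Fin N)) :=
  univ.filter fun p => Disjoint p.1 p.2

/-- pairs in contact -/
def sC (N : ℕ) : Finset (Finset (Fin N) × Finset (Fin N)) :=
  univ.filter fun p => ¬ Disjoint p.1 p.2

lemma mem_sD {p : Finset (Fin N) × Finset (Fin N)} : p ∈ sD N ↔ Disjoint p.1 p.2 := by
  simp [sD]

lemma mem_sC {p : Finset (Fin N) × Finset (Fin N)} : p ∈ sC N ↔ ¬ Disjoint p.1 p.2 := by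
  simp [sC]

/-- disjoint part of `conj h * G` -/
def Dd (h : Finset (Fin N) → ℝ) (G : Finset (Fin N) → ℂ) (w : Fin N → ZMod 4) : ℂ :=
  ∑ p ∈ sD N, ((h p.1 : ℂ) * G p.2) * ch4 (ind p.2 - ind p.1) w

/-- contact part of `conj h * G` -/
def Cc (h : Finset (Fin N) → ℝ) (G : Finset (Fin N) → ℂ) (w : Fin N → ZMod 4) : ℂ :=
  ∑ p ∈ sC N, ((h p.1 : ℂ) * G p.2) * ch4 (ind p.2 - ind p.1) w

/-- disjoint part of `h * G` -/
def Dp (h : Finset (Fin N) → ℝ) (G : Finset (Fin N) → ℂ) (w : Fin N → ZMod 4) : ℂ :=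
  ∑ p ∈ sD N, ((h p.1 : ℂ) * G p.2) * ch4 (ind p.1 + ind p.2) w

/-- contact part of `h * G` -/
def Cp (h : Finset (Fin N) → ℝ) (G : Finset (Fin N) → ℂ) (w : Fin N → ZMod 4) : ℂ :=
  ∑ p ∈ sC N, ((h p.1 : ℂ) * G p.2) * ch4 (ind p.1 + ind p.2) w

lemma conj_hz_mul (h : Finset (Fin N) → ℝ) (G : Finset (Fin N) → ℂ) (w : Fin N → ZMod 4) :
    conj (hz h w) * ev G w = Dd h G w + Cc h G w := by
  unfold Dd Cc sD sC
  rw [Finset.sum_filter_add_sum_filter_not, Fintype.sum_prod_type]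
  unfold hz ev
  rw [map_sum, Finset.sum_mul_sum]
  refine Finset.sum_congr rfl fun R _ => Finset.sum_congr rfl fun A _ => ?_
  rw [map_mul, Complex.conj_ofReal, ← conj_ch4_mul]
  ring

lemma hz_mul (h : Finset (Fin N) → ℝ) (G : Finset (Fin N) → ℂ) (w : Fin N → ZMod 4) :
    hz h w * ev G w = Dp h G w + Cp h G w := by
  unfold Dp Cp sD sC
  rw [Finset.sum_filter_add_sum_filter_not, Fintype.sum_prod_type]
  unfold hz ev
  rw [Finset.sum_mul_sum]
  refine Finset.sum_congr rfl fun R _ => Finset.sum_congr rfl fun A _ => ?_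
  rw [ch4_add]
  ring

lemma Dp_eq (h : Finset (Fin N) → ℝ) (G : Finset (Fin N) → ℂ) (w : Fin N → ZMod 4) :
    Dp h G w = ev (Wc h G) w := by
  unfold Dp ev sD
  rw [Finset.sum_filter, Fintype.sum_prod_type_right]
  unfold Wc
  simp only [Finset.sum_mul]
  rw [Finset.sum_comm (s := (univ : Finset (Finset (Fin N)))) (t := univ)
    (f := fun B A => (if A ⊆ B then (h (B \ A) : ℂ) else 0) * G A * ch4 (ind B) w)]
  refine Finset.sum_congr rfl fun A _ => ?_
  rw [← Finset.sum_filter]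
  have h1 : ∑ B, (if A ⊆ B then (h (B \ A) : ℂ) else 0) * G A * ch4 (ind B) w =
      ∑ B ∈ univ.filter (fun B => A ⊆ B), (h (B \ A) : ℂ) * G A * ch4 (ind B) w := by
    rw [Finset.sum_filter]
    refine Finset.sum_congr rfl fun B _ => ?_
    split_ifs <;> simp
  rw [h1]
  refine Finset.sum_bij' (fun R _ => R ∪ A) (fun B _ => B \ A) ?_ ?_ ?_ ?_ ?_
  · intro R _
    simp
  · intro B _
    simp only [Finset.mem_filter, Finset.mem_univ, true_and]
    exact Finset.sdiff_disjoint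
  · intro R hR
    have : Disjoint R A := (Finset.mem_filter.mp hR).2
    rw [Finset.union_sdiff_right, Finset.sdiff_eq_self_of_disjoint this]
  · intro B hB
    have : A ⊆ B := (Finset.mem_filter.mp hB).2
    exact Finset.sdiff_union_of_subset this
  · intro R hR
    have : Disjoint R A := (Finset.mem_filter.mp hR).2
    rw [Finset.union_sdiff_right, Finset.sdiff_eq_self_of_disjoint this]
    rw [ind_union this]

lemma sum_conj_Dp_Cp (h : Finset (Fin N) → ℝ) (G : Finset (Fin N) → ℂ) :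
    ∑ w, conj (Dp h G w) * Cp h G w = 0 := by
  apply sum_conj_mul_zero
  intro p hp q hq heq
  exfalso
  rw [mem_sD] at hp
  rw [mem_sC, Finset.not_disjoint_iff] at hq
  obtain ⟨j, h1, h2⟩ := hq
  have h3 := (ind_add_two q.2 q.1 j).mpr ⟨h1, h2⟩
  rw [← heq, ind_add_two] at h3
  exact Finset.disjoint_left.mp hp h3.1 h3.2

/-- the disjoint part of a product on the cube is controlled by the product of the extensions -/
lemma n2_Wc_le (h : Finset (Fin N) → ℝ) (G : Finset (Fin N) → ℂ) :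
    4 ^ N * n2 (Wc h G) ≤ ∑ w, ‖hz h w‖ ^ 2 * ‖ev G w‖ ^ 2 := by
  rw [← sum_norm_ev]
  simp only [← Dp_eq]
  have h1 := sum_norm_add_sq (Dp h G) (Cp h G) (sum_conj_Dp_Cp h G)
  have h2 : ∀ w, ‖hz h w‖ ^ 2 * ‖ev G w‖ ^ 2 = ‖Dp h G w + Cp h G w‖ ^ 2 := by
    intro w
    rw [← hz_mul, norm_mul, mul_pow]
  simp only [h2]
  rw [h1]
  have h3 : 0 ≤ ∑ w, ‖Cp h G w‖ ^ 2 := Finset.sum_nonneg fun _ _ => by positivity
  linarith

lemma sum_conj_Dd_Cc {k : ℕ} (h : Finset (Fin N) → ℝ) (hh : Hom k h) (G : Finset (Fin N) → ℂ) :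
    ∑ w, conj (Dd h G w) * Cc h G w = 0 := by
  apply sum_conj_mul_zero
  intro p hp q hq heq
  rw [mem_sD] at hp
  rw [mem_sC] at hq
  by_cases h1 : p.1.card = k
  swap
  · left; rw [hh p.1 h1]; simp
  by_cases h2 : q.1.card = k
  swap
  · right; rw [hh q.1 h2]; simp
  exfalso
  have h3 : p.1 \ p.2 = q.1 \ q.2 := by
    ext j
    rw [Finset.mem_sdiff, Finset.mem_sdiff, ← ind_sub_three, heq, ind_sub_three]
  rw [Finset.sdiff_eq_self_of_disjoint hp] at h3
  have h4 : q.1 \ q.2 = q.1 := by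
    apply Finset.eq_of_subset_of_card_le Finset.sdiff_subset
    rw [← h3, h1, h2]
  exact hq (h4 ▸ Finset.sdiff_disjoint)

lemma sum_norm_Dd (h : Finset (Fin N) → ℝ) (G : Finset (Fin N) → ℂ) :
    ∑ w, ‖Dd h G w‖ ^ 2 = 4 ^ N * ∑ p ∈ sD N, (h p.1) ^ 2 * ‖G p.2‖ ^ 2 := by
  unfold Dd
  rw [sum_norm_sq]
  · congr 1
    refine Finset.sum_congr rfl fun p _ => ?_
    rw [norm_mul, mul_pow, Complex.norm_real, Real.norm_eq_abs, sq_abs]
  · intro p hp q hq heq
    rw [mem_sD] at hp hq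
    have h3 : p.1 \ p.2 = q.1 \ q.2 := by
      ext j
      rw [Finset.mem_sdiff, Finset.mem_sdiff, ← ind_sub_three, heq, ind_sub_three]
    have h4 : p.2 \ p.1 = q.2 \ q.1 := by
      ext j
      rw [Finset.mem_sdiff, Finset.mem_sdiff, ← ind_sub_one, heq, ind_sub_one]
    rw [Finset.sdiff_eq_self_of_disjoint hp, Finset.sdiff_eq_self_of_disjoint hq] at h3
    rw [Finset.sdiff_eq_self_of_disjoint hp.symm, Finset.sdiff_eq_self_of_disjoint hq.symm] at h4
    exact Prod.ext h3 h4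

/-- mass decomposition -/
lemma sum_hz_ev {k : ℕ} (h : Finset (Fin N) → ℝ) (hh : Hom k h) (G : Finset (Fin N) → ℂ) :
    ∑ w, ‖hz h w‖ ^ 2 * ‖ev G w‖ ^ 2 =
      4 ^ N * (∑ p ∈ sD N, (h p.1) ^ 2 * ‖G p.2‖ ^ 2) + ∑ w, ‖Cc h G w‖ ^ 2 := by
  rw [← sum_norm_Dd, ← sum_norm_add_sq _ _ (sum_conj_Dd_Cc h hh G)]
  refine Finset.sum_congr rfl fun w _ => ?_
  rw [← conj_hz_mul, norm_mul, mul_pow, RCLike.norm_conj]

lemma sum_conj_Dd_ev {k : ℕ} (hk : 1 ≤ k) (h : Finset (Fin N) → ℝ) (hh : Hom k h)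
    (G : Finset (Fin N) → ℂ) :
    ∑ w, conj (Dd h G w) * ev G w = 0 := by
  apply sum_conj_mul_zero
  intro p hp A _ heq
  rw [mem_sD] at hp
  by_cases h1 : p.1.card = k
  swap
  · left; rw [hh p.1 h1]; simp
  exfalso
  have h2 : p.1.Nonempty := by
    rw [← Finset.card_pos]; omega
  obtain ⟨j, hj⟩ := h2
  have h3 := (ind_sub_three p.2 p.1 j).mpr ⟨hj, fun h4 => Finset.disjoint_left.mp hp hj h4⟩
  rw [heq] at h3
  exact ind_ne_three A j h3

lemma sum_conj_ev_Cp (h : Finset (Fin N) → ℝ) (G F : Finset (Fin N) → ℂ) :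
    ∑ w, conj (ev F w) * Cp h G w = 0 := by
  apply sum_conj_mul_zero
  intro A _ q hq heq
  exfalso
  rw [mem_sC, Finset.not_disjoint_iff] at hq
  obtain ⟨j, h1, h2⟩ := hq
  have h3 := (ind_add_two q.2 q.1 j).mpr ⟨h1, h2⟩
  rw [← heq] at h3
  exact ind_ne_two A j h3

/-- the correlation with a homogeneous multiplier only sees the contact part -/
lemma sum_conj_Wc {k : ℕ} (hk : 1 ≤ k) (h : Finset (Fin N) → ℝ) (hh : Hom k h)
    (G : Finset (Fin N) → ℂ) :
    4 ^ N * ∑ B, conj (G B) * Wc h G B = ∑ w, conj (Cc h G w) * ev G w := by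
  have h1 : ∑ w, conj (ev G w) * ev (Wc h G) w = 4 ^ N * ∑ B, conj (G B) * Wc h G B := by
    unfold ev
    rw [sum_conj_mul]
    congr 1
    refine Finset.sum_congr rfl fun A _ => ?_
    have : ∀ B ∈ (univ : Finset (Finset (Fin N))),
        (if ind A = ind B then conj (G A) * Wc h G B else 0) =
        if A = B then conj (G A) * Wc h G B else 0 := by
      intro B _
      by_cases h1 : A = B
      · subst h1; simp
      · rw [if_neg h1, if_neg (fun h2 => h1 (ind_inj h2))]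
    rw [Finset.sum_congr rfl this, Finset.sum_ite_eq, if_pos (Finset.mem_univ _)]
  rw [← h1]
  have h2 : ∀ w, conj (ev G w) * ev (Wc h G) w =
      conj (conj (hz h w) * ev G w) * ev G w - conj (ev G w) * Cp h G w := by
    intro w
    rw [← Dp_eq, map_mul, Complex.conj_conj, show Dp h G w = hz h w * ev G w - Cp h G w by
      rw [hz_mul]; ring]
    ring
  simp only [h2]
  rw [Finset.sum_sub_distrib, sum_conj_ev_Cp, sub_zero]
  simp only [conj_hz_mul, map_add, add_mul]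
  rw [Finset.sum_add_distrib, sum_conj_Dd_ev hk h hh, zero_add]

end

end Pool.Agent.H.MP_58d537_lc.H52
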